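import Pool.Agent.Lib.MP_f76cdc_ag.Defs

namespace Pool.Agent.Lib.MP_f76cdc_ag

open Polynomial

variable {k : Type*} [Field k]

theorem am_ne_zero {F : k[X]} (hF : F ≠ 0) : algebraMap k[X] (RatFunc k) F ≠ 0 := by
  simpa using hF

theorem ddz_div (F G : k[X]) (hG : G ≠ 0) :
    ddz (algebraMap k[X] (RatFunc k) F / algebraMap k[X] (RatFunc k) G) =
      algebraMap k[X] (RatFunc k) (derivative F * G - F * derivative G) /
        algebraMap k[X] (RatFunc k) (G ^ 2) := by
  set f := algebraMap k[X] (RatFunc k) F / algebraMap k[X] (RatFunc k) G with hf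
  have h1 : f.num * G = F * f.denom := (RatFunc.num_mul_eq_mul_denom_iff hG).2 hf
  have h2 := congrArg derivative h1
  simp only [derivative_mul] at h2
  have hd : f.denom ≠ 0 := RatFunc.denom_ne_zero f
  unfold ddz
  rw [div_eq_div_iff (am_ne_zero (pow_ne_zero 2 hd)) (am_ne_zero (pow_ne_zero 2 hG)),
    ← map_mul, ← map_mul]
  congr 1
  linear_combination (f.denom * G) * h2 - (derivative G * f.denom + derivative f.denom * G) * h1

theorem isLog_of_wronskian (F G N P : k[X]) (hF : F ≠ 0) (hG : G ≠ 0) (hP : P ≠ 0)
    (h : N * (F * G) = (derivative F * G - F * derivative G) * P) :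
    IsLogarithmic (algebraMap k[X] (RatFunc k) N / algebraMap k[X] (RatFunc k) P) := by
  refine ⟨algebraMap k[X] (RatFunc k) F / algebraMap k[X] (RatFunc k) G,
    div_ne_zero (am_ne_zero hF) (am_ne_zero hG), ?_⟩
  rw [ddz_div F G hG]
  have hF' := am_ne_zero hF
  have hG' := am_ne_zero hG
  have hP' := am_ne_zero hP
  have h' := congrArg (algebraMap k[X] (RatFunc k)) h
  simp only [map_mul, map_pow] at h' ⊢
  field_simp
  linear_combination h'

/-- In characteristic three, `dz/P` is logarithmic as soon as `(P P')' = 1`. -/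
theorem isLog_inv_of_char3 (h3 : (3 : k[X]) = 0) (P : k[X])
    (h : derivative P ^ 2 + P * derivative (derivative P) = 1) :
    IsLogarithmic (algebraMap k[X] (RatFunc k) 1 / algebraMap k[X] (RatFunc k) P) := by
  have hP : P ≠ 0 := by
    rintro rfl
    simp at h
  by_cases h1 : derivative P - 1 = 0
  · refine isLog_of_wronskian P 1 1 P hP one_ne_zero hP ?_
    simp only [derivative_one]
    linear_combination (-P) * h1
  by_cases h2 : derivative P + 1 = 0
  · refine isLog_of_wronskian 1 P 1 P one_ne_zero hP hP ?_
    simp only [derivative_one]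
    linear_combination P * h2
  refine isLog_of_wronskian (derivative P - 1) (derivative P + 1) 1 P h1 h2 hP ?_
  simp only [derivative_sub, derivative_add, derivative_one]
  linear_combination h - (P * derivative (derivative P)) * h3

theorem good_inv (P : k[X]) (hP : P ≠ 0) :
    (∀ x : k, (algebraMap k[X] (RatFunc k) 1 / algebraMap k[X] (RatFunc k) P).num.eval x ≠ 0) ∧
      ordInfty (algebraMap k[X] (RatFunc k) 1 / algebraMap k[X] (RatFunc k) P) =
        (P.natDegree : ℤ) - 2 := by
  constructor
  · intro x hx
    have hd := RatFunc.num_div_dvd (1 : k[X]) hP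
    obtain ⟨c, hc⟩ := hd
    have := congrArg (eval x) hc
    rw [eval_mul, hx] at this
    simp at this
  · unfold ordInfty
    rw [RatFunc.intDegree_div (am_ne_zero one_ne_zero) (am_ne_zero hP),
      RatFunc.intDegree_polynomial, RatFunc.intDegree_polynomial]
    simp

end Pool.Agent.Lib.MP_f76cdc_ag
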