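import Pool.Agent.Lib.MP_f76cdc_ag.Basic

namespace Pool.Agent.Lib.MP_f76cdc_ag

open Polynomial

variable {k : Type*} [Field k]

theorem crit_of_DW (h3 : (3 : k[X]) = 0) (A B : k[X])
    (h : derivative ((A ^ 3 * B - A * B ^ 3) * (A * derivative B - derivative A * B)) = 1) :
    derivative (B * (A + B) * (A - B)) ^ 2 +
      (B * (A + B) * (A - B)) * derivative (derivative (B * (A + B) * (A - B))) = 1 := by
  simp only [derivative_mul, derivative_add, derivative_sub, pow_succ,
    pow_zero, derivative_one] at h ⊢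
  generalize derivative (derivative A) = A2 at *
  generalize derivative (derivative B) = B2 at *
  generalize derivative A = A1 at *
  generalize derivative B = B1 at *
  grind

theorem three_eq_zero' [Algebra (ZMod 3) k] : (3 : k) = 0 := by
  have := map_natCast (algebraMap (ZMod 3) k) 3
  rw [show ((3 : ℕ) : ZMod 3) = 0 from rfl, map_zero] at this
  exact_mod_cast this.symm

theorem three_eq_zero [Algebra (ZMod 3) k] : (3 : k[X]) = 0 := by
  have := congrArg (C : k → k[X]) (three_eq_zero' (k := k))
  rw [map_ofNat, map_zero] at this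
  exact this

/-- One nonzero form `A dz / D` of the pencil. -/
theorem good_form (h3 : (3 : k[X]) = 0) (A B : k[X]) (l : ℕ) (hl : 1 ≤ l)
    (hA : A ≠ 0) (hB : B.natDegree = l) (hp : (A + B).natDegree = l) (hm : (A - B).natDegree = l)
    (h : derivative ((A ^ 3 * B - A * B ^ 3) * (A * derivative B - derivative A * B)) = 1)
    (g : RatFunc k)
    (hg : g = algebraMap k[X] (RatFunc k) A / algebraMap k[X] (RatFunc k) (A ^ 3 * B - A * B ^ 3)) :
    IsLogarithmic g ∧ (∀ x : k, g.num.eval x ≠ 0) ∧ ordInfty g = ((3 * l - 1 : ℕ) : ℤ) - 1 := by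
  have hB0 : B ≠ 0 := by rintro rfl; simp at hB; omega
  have hp0 : A + B ≠ 0 := by intro h0; rw [h0] at hp; simp at hp; omega
  have hm0 : A - B ≠ 0 := by intro h0; rw [h0] at hm; simp at hm; omega
  have hP : B * (A + B) * (A - B) ≠ 0 := mul_ne_zero (mul_ne_zero hB0 hp0) hm0
  have hg' : g = algebraMap k[X] (RatFunc k) 1 /
      algebraMap k[X] (RatFunc k) (B * (A + B) * (A - B)) := by
    have hD : A ^ 3 * B - A * B ^ 3 = A * (B * (A + B) * (A - B)) := by ring
    rw [hg, hD, map_mul, div_eq_div_iff (mul_ne_zero (am_ne_zero hA) (am_ne_zero hP))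
      (am_ne_zero hP)]
    simp
  rw [hg']
  refine ⟨isLog_inv_of_char3 h3 _ (crit_of_DW h3 A B h), (good_inv _ hP).1, ?_⟩
  rw [(good_inv _ hP).2, natDegree_mul (mul_ne_zero hB0 hp0) hm0, natDegree_mul hB0 hp0, hB, hp, hm]
  omega

theorem exists_space_char3 [Algebra (ZMod 3) k] (A B : k[X]) (l : ℕ) (hl : 1 ≤ l)
    (hA : A.natDegree = l) (hB : B.natDegree = l) (hp : (A + B).natDegree = l)
    (hm : (A - B).natDegree = l)
    (h : derivative ((A ^ 3 * B - A * B ^ 3) * (A * derivative B - derivative A * B)) = 1) :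
    ∃ V : Submodule (ZMod 3) (RatFunc k), IsSpaceL 3 (3 * l - 1) 2 V := by
  have h3 : (3 : k[X]) = 0 := three_eq_zero
  have hA0 : A ≠ 0 := by rintro rfl; simp at hA; omega
  have hB0 : B ≠ 0 := by rintro rfl; simp at hB; omega
  have hp0 : A + B ≠ 0 := by intro h0; rw [h0] at hp; simp at hp; omega
  have hm0 : A - B ≠ 0 := by intro h0; rw [h0] at hm; simp at hm; omega
  set D : k[X] := A ^ 3 * B - A * B ^ 3 with hDdef
  have hD0 : D ≠ 0 := by
    have : D = A * B * (A + B) * (A - B) := by rw [hDdef]; ring
    rw [this]; exact mul_ne_zero (mul_ne_zero (mul_ne_zero hA0 hB0) hp0) hm0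
  set a : RatFunc k := algebraMap k[X] (RatFunc k) A / algebraMap k[X] (RatFunc k) D with ha
  set b : RatFunc k := algebraMap k[X] (RatFunc k) B / algebraMap k[X] (RatFunc k) D with hb
  -- the general step: `N, N'` a basis of determinant one
  have key : ∀ (N N' : k[X]) (g : RatFunc k), N ≠ 0 → N'.natDegree = l → (N + N').natDegree = l →
      (N - N').natDegree = l → N ^ 3 * N' - N * N' ^ 3 = D →
      N * derivative N' - derivative N * N' = A * derivative B - derivative A * B →
      g = algebraMap k[X] (RatFunc k) N / algebraMap k[X] (RatFunc k) D →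
      g ≠ 0 ∧ IsLogarithmic g ∧ (∀ x : k, g.num.eval x ≠ 0) ∧
        ordInfty g = ((3 * l - 1 : ℕ) : ℤ) - 1 := by
    intro N N' g hN h1 h2 h4 hD hW hg
    refine ⟨by rw [hg]; exact div_ne_zero (am_ne_zero hN) (am_ne_zero hD0), ?_⟩
    refine good_form h3 N N' l hl hN h1 h2 h4 (by rw [hD, hW]; exact h) g (by rw [hD]; exact hg)
  have e1 : (-A).natDegree = l := by rw [natDegree_neg, hA]
  have e2 : (-B).natDegree = l := by rw [natDegree_neg, hB]
  have e3 : (-(A + B)).natDegree = l := by rw [natDegree_neg, hp]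
  have e4 : (-(A - B)).natDegree = l := by rw [natDegree_neg, hm]
  have all : ∀ x y : ZMod 3, (x ≠ 0 ∨ y ≠ 0) → (x • a + y • b) ≠ 0 ∧ IsLogarithmic (x • a + y • b) ∧
      (∀ z : k, (x • a + y • b).num.eval z ≠ 0) ∧
        ordInfty (x • a + y • b) = ((3 * l - 1 : ℕ) : ℤ) - 1 := by
    intro x y hxy
    have h3c : ∀ w : ZMod 3, w = 0 ∨ w = 1 ∨ w = -1 := by decide
    have hx := h3c x
    have hy := h3c y
    rcases hx with rfl | rfl | rfl <;> rcases hy with rfl | rfl | rfl
    · simp at hxy
    · refine key B (-A) _ hB0 e1 (by rw [← e4]; congr 1; ring) (by rw [← hp]; congr 1; ring)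
        (by rw [hDdef]; ring) (by simp only [derivative_neg]; ring) (by simp [hb])
    · refine key (-B) A _ (neg_ne_zero.2 hB0) hA (by rw [← hm]; congr 1; ring)
        (by rw [← e3]; congr 1; ring)
        (by rw [hDdef]; ring) (by simp only [derivative_neg]; ring) (by simp [hb, neg_div])
    · refine key A B _ hA0 hB hp hm rfl rfl (by simp [ha])
    · refine key (A + B) B _ hp0 hB (by rw [← hm]; congr 1; linear_combination B * h3)
        (by rw [← hA]; congr 1; ring)
        (by rw [hDdef]; grind) (by simp only [derivative_add]; ring) (by simp [ha, hb, add_div])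
    · refine key (A - B) B _ hm0 hB (by rw [← hA]; congr 1; ring)
        (by rw [← hp]; congr 1; linear_combination (-B) * h3)
        (by rw [hDdef]; grind) (by simp only [derivative_sub]; ring)
        (by simp only [ha, hb, map_sub, neg_smul, one_smul]; ring)
    · refine key (-A) (-B) _ (neg_ne_zero.2 hA0) e2 (by rw [← e3]; congr 1; ring)
        (by rw [← e4]; congr 1; ring)
        (by rw [hDdef]; ring) (by simp only [derivative_neg]; ring) (by simp [ha, neg_div])
    · refine key (-(A - B)) (-B) _ (neg_ne_zero.2 hm0) e2 (by rw [← e1]; congr 1; ring)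
        (by rw [← e3]; congr 1; linear_combination B * h3)
        (by rw [hDdef]; grind) (by simp only [derivative_neg, derivative_sub]; ring)
        (by simp only [ha, hb, map_neg, map_sub, neg_smul, one_smul]; ring)
    · refine key (-(A + B)) (-B) _ (neg_ne_zero.2 hp0) e2
        (by rw [← e4]; congr 1; linear_combination (-B) * h3)
        (by rw [← e1]; congr 1; ring)
        (by rw [hDdef]; grind) (by simp only [derivative_neg, derivative_add]; ring)
        (by simp only [ha, hb, map_neg, map_add, neg_smul, one_smul]; ring)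
  have hli : LinearIndependent (ZMod 3) ![a, b] := by
    rw [LinearIndependent.pair_iff]
    intro s t hst
    by_contra hne
    have : s ≠ 0 ∨ t ≠ 0 := by tauto
    exact (all s t this).1 hst
  refine ⟨Submodule.span (ZMod 3) (Set.range ![a, b]), ?_, ?_⟩
  · rw [finrank_span_eq_card hli]; simp
  · intro g hg hg0
    have hr : Set.range ![a, b] = {a, b} := by
      ext x; simp [or_comm]
    rw [hr, Submodule.mem_span_pair] at hg
    obtain ⟨x, y, rfl⟩ := hg
    have : x ≠ 0 ∨ y ≠ 0 := by
      by_contra hne
      push Not at hne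
      apply hg0
      simp [hne.1, hne.2]
    exact (all x y this).2

end Pool.Agent.Lib.MP_f76cdc_ag
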