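import Pool.Agent.Lib.MP_f76cdc_ag.LogForm

namespace Pool.Agent.Lib.MP_f76cdc_ag

open Polynomial

variable {k : Type*} [Field k]

/-- `g` is regular at `x`. -/
def Reg (x : k) (g : RatFunc k) : Prop :=
  ∃ N D : k[X], D.eval x ≠ 0 ∧ g = algebraMap k[X] (RatFunc k) N / algebraMap k[X] (RatFunc k) D

theorem ne_zero_of_eval {D : k[X]} {x : k} (h : D.eval x ≠ 0) : D ≠ 0 := by
  rintro rfl; simp at h

theorem Reg.add {x : k} {g h : RatFunc k} (hg : Reg x g) (hh : Reg x h) : Reg x (g + h) := by
  obtain ⟨N, D, hD, rfl⟩ := hg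
  obtain ⟨N', D', hD', rfl⟩ := hh
  refine ⟨N * D' + D * N', D * D', by rw [eval_mul]; exact mul_ne_zero hD hD', ?_⟩
  rw [div_add_div _ _ (am_ne_zero (ne_zero_of_eval hD)) (am_ne_zero (ne_zero_of_eval hD'))]
  simp

theorem Reg.neg {x : k} {g : RatFunc k} (hg : Reg x g) : Reg x (-g) := by
  obtain ⟨N, D, hD, rfl⟩ := hg
  exact ⟨-N, D, hD, by rw [map_neg, neg_div]⟩

theorem Reg.sub {x : k} {g h : RatFunc k} (hg : Reg x g) (hh : Reg x h) : Reg x (g - h) := by
  rw [sub_eq_add_neg]; exact hg.add hh.neg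

theorem Reg.mul {x : k} {g h : RatFunc k} (hg : Reg x g) (hh : Reg x h) : Reg x (g * h) := by
  obtain ⟨N, D, hD, rfl⟩ := hg
  obtain ⟨N', D', hD', rfl⟩ := hh
  refine ⟨N * N', D * D', by rw [eval_mul]; exact mul_ne_zero hD hD', ?_⟩
  rw [div_mul_div_comm, map_mul, map_mul]

theorem reg_poly (x : k) (N : k[X]) : Reg x (algebraMap k[X] (RatFunc k) N) :=
  ⟨N, 1, by simp, by simp⟩

theorem reg_iff {x : k} {g : RatFunc k} : Reg x g ↔ g.denom.eval x ≠ 0 := by
  constructor
  · rintro ⟨N, D, hD, hg⟩ h0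
    obtain ⟨c, hc⟩ := (RatFunc.denom_dvd (ne_zero_of_eval hD)).2 ⟨N, hg⟩
    apply hD
    rw [hc, eval_mul, h0, zero_mul]
  · intro h
    exact ⟨g.num, g.denom, h, (RatFunc.num_div_denom g).symm⟩

/-- The simple fraction `c / (z - x)`. -/
noncomputable def frac (x c : k) : RatFunc k :=
  algebraMap k[X] (RatFunc k) (C c) / algebraMap k[X] (RatFunc k) (X - C x)

theorem frac_add (x c d : k) : frac x (c + d) = frac x c + frac x d := by
  simp only [frac, map_add, add_div]

theorem frac_sub (x c d : k) : frac x (c - d) = frac x c - frac x d := by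
  simp only [frac, map_sub (C : k →+* k[X]), map_sub _ (C c), sub_div]

theorem eq_zero_of_reg_frac {x c : k} (h : Reg x (frac x c)) : c = 0 := by
  obtain ⟨N, D, hD, hg⟩ := h
  rw [frac, div_eq_div_iff (am_ne_zero (X_sub_C_ne_zero x)) (am_ne_zero (ne_zero_of_eval hD)),
    ← map_mul, ← map_mul] at hg
  have := congrArg (eval x) (IsFractionRing.injective k[X] (RatFunc k) hg)
  simpa [hD] using this

theorem reg_logd (x : k) (F : k[X]) (hF : F ≠ 0) : ∃ a : ℕ,
    Reg x (algebraMap k[X] (RatFunc k) (derivative F) / algebraMap k[X] (RatFunc k) F -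
      frac x a) := by
  obtain ⟨q, hq, hq'⟩ := exists_eq_pow_rootMultiplicity_mul_and_not_dvd F hF x
  generalize F.rootMultiplicity x = a at hq
  have hqx : q.eval x ≠ 0 := fun h => hq' (dvd_iff_isRoot.2 h)
  refine ⟨a, derivative q, q, hqx, ?_⟩
  have h1 := am_ne_zero hF
  have h2 := am_ne_zero (ne_zero_of_eval hqx)
  have h3 := am_ne_zero (X_sub_C_ne_zero x)
  rw [frac, div_sub_div _ _ h1 h3, div_eq_div_iff (mul_ne_zero h1 h3) h2]
  simp only [← map_mul, ← map_sub]
  congr 1
  rw [hq, derivative_mul, derivative_pow, derivative_X_sub_C]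
  rcases a with _ | a
  · simp; ring
  · rw [Nat.add_sub_cancel]; ring

theorem reg_of_isLog (p : ℕ) [Fact p.Prime] [Algebra (ZMod p) k] (x : k) (g : RatFunc k)
    (hg : IsLogarithmic g) : ∃ a : ZMod p, Reg x (g - frac x (algebraMap (ZMod p) k a)) := by
  obtain ⟨f, hf, rfl⟩ := hg
  have hn := RatFunc.num_ne_zero hf
  have hd := RatFunc.denom_ne_zero f
  obtain ⟨a, ha⟩ := reg_logd x f.num hn
  obtain ⟨b, hb⟩ := reg_logd x f.denom hd
  refine ⟨(a : ZMod p) - b, ?_⟩
  have e : ddz f / f = algebraMap k[X] (RatFunc k) (derivative f.num) /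
      algebraMap k[X] (RatFunc k) f.num - algebraMap k[X] (RatFunc k) (derivative f.denom) /
      algebraMap k[X] (RatFunc k) f.denom := by
    have h1 := am_ne_zero hn
    have h2 := am_ne_zero hd
    conv_lhs => arg 2; rw [← RatFunc.num_div_denom f]
    unfold ddz
    simp only [map_sub, map_mul, map_pow]
    field_simp
  rw [e, map_sub, map_natCast, map_natCast, frac_sub]
  convert ha.sub hb using 1
  ring

theorem card_poles [IsAlgClosed k] [DecidableEq k] (p : ℕ) [Fact p.Prime] [Algebra (ZMod p) k]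
    (g : RatFunc k) (m : ℕ) (h1 : IsLogarithmic g) (h2 : ∀ x : k, g.num.eval x ≠ 0)
    (h3 : ordInfty g = (m : ℤ) - 1) : g.denom.roots.toFinset.card = m + 1 := by
  have hd := RatFunc.denom_ne_zero g
  have hn : g.num.natDegree = 0 := by
    rw [← IsAlgClosed.roots_eq_zero_iff_natDegree_eq_zero, Multiset.eq_zero_iff_forall_notMem]
    intro x hx
    exact h2 x (isRoot_of_mem_roots hx)
  have hdd : g.denom.natDegree = m + 1 := by
    unfold ordInfty RatFunc.intDegree at h3
    omega
  rw [Multiset.toFinset_card_of_nodup, IsAlgClosed.card_roots_eq_natDegree, hdd]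
  rw [Multiset.nodup_iff_count_le_one]
  intro x
  rw [count_roots]
  obtain ⟨a, ha⟩ := reg_of_isLog p x g h1
  have h3 := am_ne_zero (X_sub_C_ne_zero x)
  have h4 : Reg x (g * algebraMap k[X] (RatFunc k) (X - C x)) := by
    convert (ha.mul (reg_poly x (X - C x))).add (reg_poly x (C (algebraMap (ZMod p) k a))) using 1
    rw [frac]
    field_simp
    ring
  obtain ⟨N, D, hD, hg⟩ := h4
  have hD0 := ne_zero_of_eval hD
  have h5 : g.denom ∣ (X - C x) * D := by
    refine (RatFunc.denom_dvd (mul_ne_zero (X_sub_C_ne_zero x) hD0)).2 ⟨N, ?_⟩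
    have h6 := am_ne_zero hD0
    rw [map_mul, eq_div_iff (mul_ne_zero h3 h6), ← mul_assoc, hg]
    field_simp
  by_contra hlt
  have h7 : (X - C x) ^ 2 ∣ g.denom :=
    (le_rootMultiplicity_iff hd).1 (by omega)
  have h8 := h7.trans h5
  rw [pow_two, mul_dvd_mul_iff_left (X_sub_C_ne_zero x)] at h8
  exact hD (dvd_iff_isRoot.1 h8)

theorem necessity [IsAlgClosed k] (p m n : ℕ) [hp : Fact p.Prime] [Algebra (ZMod p) k]
    (V : Submodule (ZMod p) (RatFunc k)) (hV : IsSpaceL p m (n + 1) V) : p ^ n ∣ m + 1 := by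
  classical
  obtain ⟨hr, hg⟩ := hV
  have hfin : Module.Finite (ZMod p) V := Module.finite_of_finrank_eq_succ hr
  have hfin' : Finite V := Module.finite_of_finite (ZMod p)
  have := Fintype.ofFinite V
  have hcard : Fintype.card V = p ^ (n + 1) := by
    rw [Module.card_eq_pow_finrank (K := ZMod p), ZMod.card, hr]
  have hex : ∀ (x : k) (g : V), ∃ a : ZMod p,
      Reg x ((g : RatFunc k) - frac x (algebraMap (ZMod p) k a)) := by
    intro x g
    by_cases h0 : (g : RatFunc k) = 0
    · refine ⟨0, ?_⟩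
      rw [h0]
      simpa [frac] using reg_poly x 0
    · exact reg_of_isLog p x g (hg g g.2 h0).1
  have huniq : ∀ (x : k) (g : RatFunc k) (a b : ZMod p),
      Reg x (g - frac x (algebraMap (ZMod p) k a)) →
      Reg x (g - frac x (algebraMap (ZMod p) k b)) → a = b := by
    intro x g a b ha hb
    have h1 : Reg x (frac x (algebraMap (ZMod p) k a - algebraMap (ZMod p) k b)) := by
      rw [frac_sub]
      convert hb.sub ha using 1
      ring
    exact (algebraMap (ZMod p) k).injective (sub_eq_zero.1 (eq_zero_of_reg_frac h1))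
  choose r hrr using hex
  have hdiv : ∀ x : k, p ^ n ∣ (Finset.univ.filter fun g : V => ¬ Reg x (g : RatFunc k)).card := by
    intro x
    let φ : V →+ ZMod p := AddMonoidHom.mk' (r x) (fun g h => by
      refine huniq x _ _ _ (hrr x (g + h)) ?_
      rw [map_add, frac_add]
      convert (hrr x g).add (hrr x h) using 1
      push_cast; ring)
    have hker : ∀ g : V, g ∈ φ.ker ↔ Reg x (g : RatFunc k) := by
      intro g
      rw [AddMonoidHom.mem_ker]
      constructor
      · intro h
        have h1 := hrr x g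
        rw [show r x g = 0 from h] at h1
        simpa [frac] using h1
      · intro h
        refine huniq x _ _ _ (hrr x g) ?_
        simpa [frac] using h
    have h1 := φ.ker.card_mul_index
    rw [AddSubgroup.index_ker, Nat.card_eq_fintype_card (α := V), hcard] at h1
    obtain ⟨c, hc⟩ := AddSubgroup.card_addSubgroup_dvd_card φ.range
    rw [Nat.card_zmod] at hc
    have h2 : p ^ n ∣ Nat.card φ.ker := by
      refine ⟨c, ?_⟩
      have h3 : 0 < Nat.card φ.range := Nat.card_pos
      apply Nat.eq_of_mul_eq_mul_right h3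
      rw [h1, pow_succ]
      conv_lhs => arg 2; rw [hc]
      ring
    have h4 : Nat.card φ.ker =
        (Finset.univ.filter fun g : V => Reg x (g : RatFunc k)).card := by
      rw [Nat.card_eq_fintype_card, Fintype.card_subtype]
      congr 1
      ext g
      simp [← hker]
    have h5 := Finset.card_filter_add_card_filter_not (s := Finset.univ)
      (fun g : V => Reg x (g : RatFunc k))
    rw [Finset.card_univ, hcard, ← h4] at h5
    have h6 : p ^ n ∣ p ^ (n + 1) := pow_dvd_pow _ (by omega)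
    rw [← h5] at h6
    exact (Nat.dvd_add_right h2).1 h6
  set U : Finset k := Finset.univ.biUnion fun g : V => (g : RatFunc k).denom.roots.toFinset with hU
  have hdc := Finset.sum_card_bipartiteAbove_eq_sum_card_bipartiteBelow
    (s := (Finset.univ : Finset V)) (t := U) (fun (g : V) x => ¬ Reg x (g : RatFunc k))
  have hA : ∀ g : V, U.bipartiteAbove (fun (g : V) x => ¬ Reg x (g : RatFunc k)) g =
      (g : RatFunc k).denom.roots.toFinset := by
    intro g
    ext x
    simp only [Finset.mem_bipartiteAbove, hU, Finset.mem_biUnion, Finset.mem_univ, true_and,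
      Multiset.mem_toFinset, mem_roots (RatFunc.denom_ne_zero _), IsRoot.def, reg_iff, not_not]
    exact ⟨fun h => h.2, fun h => ⟨⟨g, h⟩, h⟩⟩
  have hB : p ^ n ∣ ∑ g : V, (g : RatFunc k).denom.roots.toFinset.card := by
    simp only [hA] at hdc
    rw [hdc]
    exact Finset.dvd_sum fun x _ => hdiv x
  have hC : ∑ g : V, (g : RatFunc k).denom.roots.toFinset.card = (p ^ (n + 1) - 1) * (m + 1) := by
    rw [← Finset.add_sum_erase _ _ (Finset.mem_univ (0 : V))]
    rw [Finset.sum_congr rfl (g := fun _ => m + 1)]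
    · simp [hcard]
    · intro g hg'
      have h0 : (g : RatFunc k) ≠ 0 := by
        intro h; exact (Finset.mem_erase.1 hg').1 (Subtype.ext h)
      obtain ⟨h1, h2, h3⟩ := hg (g : RatFunc k) g.2 h0
      exact card_poles p (g : RatFunc k) m h1 h2 h3
  rw [hC] at hB
  refine Nat.Coprime.dvd_of_dvd_mul_left ?_ hB
  apply Nat.Coprime.pow_left
  have h1 : 1 ≤ p ^ (n + 1) := Nat.one_le_pow _ _ hp.out.pos
  rw [Nat.Prime.coprime_iff_not_dvd hp.out]
  intro h
  have h2 : p ∣ p ^ (n + 1) - 1 + 1 := by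
    rw [Nat.sub_add_cancel h1]; exact dvd_pow_self _ (by omega)
  exact hp.out.one_lt.ne' (Nat.dvd_one.1 ((Nat.dvd_add_right h).1 h2))

end Pool.Agent.Lib.MP_f76cdc_ag
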