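import Pool.Agent.Lib.MP_f76cdc_ag.Family2
import Pool.Agent.Lib.MP_f76cdc_ag.Necessity

namespace Pool.Agent.Lib.MP_f76cdc_ag

open Polynomial

variable {k : Type*} [Field k]

theorem family2 (n N : ℕ) (hN : N + 1 = 2 ^ n) [IsAlgClosed k] [CharP k 2]
    [Algebra (ZMod 2) k] (f s P : k[X]) (hn : 1 ≤ n) (hP : P ≠ 0)
    (hfs : derivative (f * s) = 1) (hb : f ∣ s * P ^ N - 1) (d : ℕ)
    (hd : f.natDegree + d = s.natDegree + N * P.natDegree) (hdeg : P.natDegree < d) (m : ℕ)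
    (hm : m + 1 + 2 ^ n * d = 2 ^ n * (s.natDegree + N * d)) :
    ∃ V : Submodule (ZMod 2) (RatFunc k), IsSpaceL 2 m (n + 1) V := by
  obtain ⟨Q, hQ⟩ := hb
  have h2 : (2 : k[X]) = 0 := CharP.cast_eq_zero _ 2
  have hf0 : f ≠ 0 := by rintro rfl; simp at hfs
  have hs0 : s ≠ 0 := by rintro rfl; simp at hfs
  have h1 : (s * P ^ N - 1).natDegree = s.natDegree + N * P.natDegree := by
    rw [← C_1, natDegree_sub_C, natDegree_mul hs0 (pow_ne_zero _ hP), natDegree_pow]
  have hQ0 : Q ≠ 0 := by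
    rintro rfl
    rw [hQ] at h1
    simp only [mul_zero, natDegree_zero] at h1
    omega
  have hQd : Q.natDegree = d := by
    rw [hQ, natDegree_mul hf0 hQ0] at h1
    omega
  refine family2_core n N hN f s P Q hn hP hfs ?_ (by omega) m (by rw [hQd]; exact hm)
  linear_combination hQ + (f * Q) * h2

/-- All large odd multiples. -/
theorem family2_large (n l : ℕ) [IsAlgClosed k] [CharP k 2] [Algebra (ZMod 2) k] (hn : 1 ≤ n)
    (hl : Odd l) (hbig : 2 * 8 ^ n ≤ l) (m : ℕ) (hm : m + 1 = 2 ^ n * l) :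
    ∃ V : Submodule (ZMod 2) (RatFunc k), IsSpaceL 2 m (n + 1) V := by
  have h2 : (2 : k[X]) = 0 := CharP.cast_eq_zero _ 2
  have h2k : (2 : k) = 0 := CharP.cast_eq_zero _ 2
  obtain ⟨n', rfl⟩ : ∃ n', n = n' + 1 := ⟨n - 1, by omega⟩
  obtain ⟨M, hM⟩ : ∃ M, M + 1 = 2 ^ n' := ⟨2 ^ n' - 1, Nat.sub_add_cancel Nat.one_le_two_pow⟩
  set N := 2 * M + 1 with hNdef
  have hN : N + 1 = 2 ^ (n' + 1) := by rw [pow_succ, ← hM]; ring
  have h8 : 8 ^ (n' + 1) = (N + 1) ^ 3 := by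
    rw [hN, ← pow_mul, mul_comm, pow_mul]; norm_num
  set r := l % (2 * N) with hr
  have hr1 : r < 2 * N := Nat.mod_lt _ (by omega)
  have hl2 : 2 * N * (l / (2 * N)) + r = l := Nat.div_add_mod l (2 * N)
  have hro : r % 2 = 1 := by
    rw [hr, Nat.mod_mod_of_dvd _ (dvd_mul_right 2 N)]; exact Nat.odd_iff.1 hl
  have hbig2 : M * r + 1 ≤ l / (2 * N) := by
    rw [Nat.le_div_iff_mul_le (by omega)]
    rw [h8] at hbig
    have : M * r ≤ M * (2 * N) := Nat.mul_le_mul_left _ hr1.le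
    have : (M * r + 1) * (2 * N) ≤ (M * (2 * N) + 1) * (2 * N) := Nat.mul_le_mul_right _ (by omega)
    have e : 2 * (N + 1) ^ 3 = (M * (2 * N) + 1) * (2 * N) + (8 * N ^ 2 + 4 * N + 2) := by
      rw [hNdef]; ring
    omega
  obtain ⟨b, hb⟩ : ∃ b, l / (2 * N) = M * r + (b + 1) := ⟨l / (2 * N) - (M * r + 1), by omega⟩
  have hrk : (r : k) = 1 := by
    rw [← Nat.div_add_mod r 2, hro]; push_cast; rw [h2k]; ring
  set f : k[X] := X ^ r - C 1 with hf
  have hfd : f.natDegree = r := natDegree_X_pow_sub_C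
  have hf0 : f ≠ 0 := by intro h; rw [h, natDegree_zero] at hfd; omega
  have hsep : f.Separable := separable_X_pow_sub_C 1 (by rw [hrk]; exact one_ne_zero) one_ne_zero
  obtain ⟨g, hgd, hg⟩ := exists_interp f X hsep N (by omega) (by
    intro x hx h0
    rw [eval_X] at h0
    subst h0
    simp [hf, show r ≠ 0 by omega] at hx)
  have hPd : (g + f).natDegree = r := by
    rw [natDegree_add_eq_right_of_degree_lt, hfd]
    rwa [degree_eq_natDegree hf0]
  have hsd : (X + f * X ^ (2 * (b + 1))).natDegree = r + 2 * (b + 1) := by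
    rw [natDegree_add_eq_right_of_natDegree_lt] <;>
      rw [natDegree_mul hf0 (pow_ne_zero _ X_ne_zero), natDegree_X_pow, hfd]
    rw [natDegree_X]; omega
  refine family2 (n' + 1) N hN f (X + f * X ^ (2 * (b + 1))) (g + f) hn ?_ ?_ ?_
    (2 * (b + 1) + N * r) ?_ ?_ m ?_
  · intro h; rw [h, natDegree_zero] at hPd; omega
  · have e : f * (X + f * X ^ (2 * (b + 1))) = X ^ (r + 1) - X + (f * X ^ (b + 1)) ^ 2 := by
      rw [hf, C_1]; ring
    rw [e, derivative_add, derivative_sub, derivative_X_pow, derivative_X, derivative_pow]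
    push_cast
    rw [hrk, one_add_one_eq_two, h2k, C_0]
    linear_combination (-1 : k[X]) * h2
  · have h1 : f ∣ (g + f) ^ N - g ^ N := by
      simpa using sub_dvd_pow_sub_pow (g + f) g N
    have e : (X + f * X ^ (2 * (b + 1))) * (g + f) ^ N - 1 =
        (X * g ^ N - 1) + X * ((g + f) ^ N - g ^ N) + f * (X ^ (2 * (b + 1)) * (g + f) ^ N) := by
      ring
    rw [e]
    exact dvd_add (dvd_add hg (h1.mul_left _)) (dvd_mul_right _ _)
  · rw [hfd, hsd, hPd]; ring
  · rw [hPd, hNdef]; nlinarith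
  · rw [hsd, hm, ← mul_add, ← hl2, hb, hNdef]
    congr 1
    ring

theorem klein_identity {R : Type*} [CommRing R] (h2 : (2 : R) = 0) (a b c t : R) (ht : t ^ 7 = 1) :
    (t * (b ^ 3 + c * a ^ 2) + t ^ 2 * (c ^ 3 + a * b ^ 2) + t ^ 4 * (a ^ 3 + b * c ^ 2)) *
      ((a ^ 3 * c + b ^ 3 * a + c ^ 3 * b) + (t ^ 5 * a ^ 2 + t ^ 3 * b ^ 2 + t ^ 6 * c ^ 2 +
        t ^ 4 * (a * b) + t * (b * c) + t ^ 2 * (c * a)) ^ 2) =
      a ^ 7 + b ^ 7 + c ^ 7 + a * b ^ 2 * c ^ 4 + a ^ 2 * b ^ 4 * c + a ^ 4 * b * c ^ 2 := by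
  grind

theorem exists_L20 [IsAlgClosed k] [CharP k 2] [Algebra (ZMod 2) k] :
    ∃ V : Submodule (ZMod 2) (RatFunc k), IsSpaceL 2 19 3 V := by
  have h2 : (2 : k[X]) = 0 := CharP.cast_eq_zero _ 2
  have h2k : (2 : k) = 0 := CharP.cast_eq_zero _ 2
  set a : k[X] := X ^ 5 + X ^ 2 + X with ha
  set b : k[X] := X ^ 3 + X with hb
  set c : k[X] := X ^ 3 + 1 with hc
  set R : k[X] := a ^ 7 + b ^ 7 + c ^ 7 + a * b ^ 2 * c ^ 4 + a ^ 2 * b ^ 4 * c + a ^ 4 * b * c ^ 2
    with hR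
  have hK : derivative (a ^ 3 * c + b ^ 3 * a + c ^ 3 * b) = 1 := by
    have da : derivative a = X ^ 4 + 1 := by
      rw [ha]; simp only [derivative_add, derivative_X_pow, derivative_X, C_eq_natCast]
      push_cast; linear_combination (2 * X ^ 4 + X) * h2
    have db : derivative b = X ^ 2 + 1 := by
      rw [hb]; simp only [derivative_add, derivative_X_pow, derivative_X, C_eq_natCast]
      push_cast; linear_combination (X ^ 2) * h2
    have dc : derivative c = X ^ 2 := by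
      rw [hc]; simp only [derivative_add, derivative_X_pow, derivative_one, C_eq_natCast]
      push_cast; linear_combination (X ^ 2) * h2
    simp only [derivative_add, derivative_mul, derivative_pow, da, db, dc, C_eq_natCast]
    push_cast
    rw [ha, hb, hc]
    grind
  have had : a.natDegree = 5 := by rw [ha]; compute_degree!
  have hR0 : R ≠ 0 := by
    intro h
    have := congrArg (eval 0) h
    simp [hR, ha, hb, hc] at this
  refine exists_space_of_family 2 3 19 (by omega) (fun t => algebraMap k[X] (RatFunc k)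
    (C t * (b ^ 3 + c * a ^ 2) + C t ^ 2 * (c ^ 3 + a * b ^ 2) + C t ^ 4 * (a ^ 3 + b * c ^ 2)) /
      algebraMap k[X] (RatFunc k) R) ?_ ?_
  · intro s t
    have e2 : (C s + C t : k[X]) ^ 2 = C s ^ 2 + C t ^ 2 := add_pow_char _ _ 2
    have e4 : (C s + C t : k[X]) ^ 4 = C s ^ 4 + C t ^ 4 := add_pow_char_pow (C s) (C t) 2 2
    rw [← add_div, ← map_add, C_add, e2, e4]
    refine congrArg (fun F => algebraMap k[X] (RatFunc k) F / algebraMap k[X] (RatFunc k) R) ?_
    ring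
  · intro t ht0 ht
    have ht7 : t ^ 7 = 1 := by
      apply mul_left_cancel₀ ht0
      linear_combination ht
    have hC : (C t : k[X]) ^ 7 = 1 := by rw [← C_pow, ht7, C_1]
    have hid := klein_identity h2 a b c (C t) hC
    rw [← hR] at hid
    set T := C t * (b ^ 3 + c * a ^ 2) + C t ^ 2 * (c ^ 3 + a * b ^ 2) +
      C t ^ 4 * (a ^ 3 + b * c ^ 2) with hT
    set S := C t ^ 5 * a ^ 2 + C t ^ 3 * b ^ 2 + C t ^ 6 * c ^ 2 +
        C t ^ 4 * (a * b) + C t * (b * c) + C t ^ 2 * (c * a) with hS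
    set P := (a ^ 3 * c + b ^ 3 * a + c ^ 3 * b) + S ^ 2 with hP
    have hT0 : T ≠ 0 := by rintro h; rw [h, zero_mul] at hid; exact hR0 hid.symm
    have hP0 : P ≠ 0 := by rintro h; rw [h, mul_zero] at hid; exact hR0 hid.symm
    have hdP : derivative P = 1 := by
      rw [hP, derivative_add, hK, derivative_pow]; simp [h2k]
    have hSd : S.natDegree = 10 := by
      have e : S = C (t ^ 5) * a ^ 2 + (C t ^ 3 * b ^ 2 + C t ^ 6 * c ^ 2 +
        C t ^ 4 * (a * b) + C t * (b * c) + C t ^ 2 * (c * a)) := by rw [hS, C_pow]; ring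
      have h1 : (C (t ^ 5) * a ^ 2).natDegree = 10 := by
        rw [natDegree_C_mul (pow_ne_zero _ ht0), natDegree_pow, had]
      rw [e, natDegree_add_eq_left_of_natDegree_lt, h1]
      rw [h1]
      refine lt_of_le_of_lt (b := 8) ?_ (by norm_num)
      rw [ha, hb, hc]; compute_degree
    have hPd : P.natDegree = 20 := by
      have : (a ^ 3 * c + b ^ 3 * a + c ^ 3 * b).natDegree ≤ 18 := by
        rw [ha, hb, hc]; compute_degree
      rw [hP, natDegree_add_eq_right_of_natDegree_lt] <;> rw [natDegree_pow, hSd]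
      omega
    have hg : algebraMap k[X] (RatFunc k) T / algebraMap k[X] (RatFunc k) R =
        algebraMap k[X] (RatFunc k) 1 / algebraMap k[X] (RatFunc k) P := by
      rw [div_eq_div_iff (am_ne_zero hR0) (am_ne_zero hP0), ← map_mul, ← map_mul, hid, one_mul]
    simp only [hg]
    refine ⟨div_ne_zero (am_ne_zero one_ne_zero) (am_ne_zero hP0), ?_, (good_inv P hP0).1, ?_⟩
    · refine isLog_of_wronskian P 1 1 P hP0 one_ne_zero hP0 ?_
      rw [hdP]; simp
    · rw [(good_inv P hP0).2, hPd]; norm_num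

theorem exists_char2_easy (n l : ℕ) [IsAlgClosed k] [CharP k 2] [Algebra (ZMod 2) k]
    (hl : l ≠ 0) (he : 2 ∣ l) (m : ℕ) (hm : m + 1 = 2 ^ n * l) :
    ∃ V : Submodule (ZMod 2) (RatFunc k), IsSpaceL 2 m (n + 1) V :=
  family1 2 n 0 l (Or.inr ⟨he, hl⟩) m (by rw [hm]; ring)

theorem exists_char2_two (l : ℕ) [IsAlgClosed k] [CharP k 2] [Algebra (ZMod 2) k]
    (m : ℕ) (hm : m + 1 = 2 ^ 1 * l) :
    ∃ V : Submodule (ZMod 2) (RatFunc k), IsSpaceL 2 m (1 + 1) V := by
  rcases Nat.even_or_odd' l with ⟨j, rfl | rfl⟩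
  · exact exists_char2_easy 1 _ (by omega) (dvd_mul_right _ _) m hm
  · exact family1 2 1 j 1 (Or.inl rfl) m (by rw [hm]; ring)

theorem exists_char2_three (l : ℕ) [IsAlgClosed k] [CharP k 2] [Algebra (ZMod 2) k]
    (m : ℕ) (hm : m + 1 = 2 ^ 2 * l) :
    ∃ V : Submodule (ZMod 2) (RatFunc k), IsSpaceL 2 m (2 + 1) V := by
  have h2 : (2 : k[X]) = 0 := CharP.cast_eq_zero _ 2
  have hder : derivative ((X ^ 5 + 1 : k[X]) * X) = 1 := by
    simp only [derivative_add, derivative_mul, derivative_X_pow, derivative_X, derivative_one,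
      C_eq_natCast]
    push_cast; linear_combination (3 * X ^ 5) * h2
  have hf : (X ^ 5 + 1 : k[X]).natDegree = 5 := by compute_degree!
  by_cases he : 2 ∣ l
  · exact exists_char2_easy 2 _ (by omega) he m hm
  obtain ⟨j, hj⟩ : ∃ j, l = 6 * j + 1 ∨ l = 6 * j + 3 ∨ l = 5 ∨ l = 11 ∨ l = 17 ∨
      l = 6 * j + 23 := by
    by_cases h : l % 6 = 5
    · exact ⟨l / 6 - 3, by omega⟩
    · exact ⟨l / 6, by omega⟩
  rcases hj with rfl | rfl | rfl | rfl | rfl | rfl
  · exact family1 2 2 j 1 (Or.inl rfl) m (by rw [hm]; ring)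
  · refine family2 2 3 (by norm_num) 1 X (X ^ j) (by omega) (pow_ne_zero _ X_ne_zero) (by simp)
      (one_dvd _) (1 + 3 * j) (by simp) (by simp; omega) m (by rw [hm, natDegree_X]; ring)
  · obtain rfl : m = 19 := by omega
    exact exists_L20
  · refine family2 2 3 (by norm_num) (X ^ 5 + 1) X (X ^ 3) (by omega) (pow_ne_zero _ X_ne_zero)
      hder ⟨X ^ 5 - 1, by ring⟩ 5 (by rw [hf]; simp) (by simp) m (by rw [hm, natDegree_X]; ring)
  · have hP : (X ^ 4 + X ^ 3 + X ^ 2 : k[X]).natDegree = 4 := by compute_degree!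
    refine family2 2 3 (by norm_num) (X ^ 5 + 1) X (X ^ 4 + X ^ 3 + X ^ 2) (by omega)
      (by intro h; rw [h] at hP; simp at hP)
      hder ⟨X ^ 8 + X ^ 7 + X ^ 5 + 1, by grind⟩ 8 (by rw [hf, hP]; simp)
      (by rw [hP]; norm_num) m (by rw [hm, natDegree_X]; ring)
  · have hP : (X ^ 3 + (X ^ 5 + 1) * X ^ j : k[X]).natDegree = 5 + j := by
      have h0 : (X ^ 5 + 1 : k[X]) ≠ 0 := by intro h; rw [h] at hf; simp at hf
      rw [natDegree_add_eq_right_of_natDegree_lt] <;>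
        rw [natDegree_mul h0 (pow_ne_zero _ X_ne_zero), hf, natDegree_X_pow]
      rw [natDegree_X_pow]; omega
    refine family2 2 3 (by norm_num) (X ^ 5 + 1) X (X ^ 3 + (X ^ 5 + 1) * X ^ j) (by omega)
      (by intro h; rw [h] at hP; simp at hP; omega)
      hder ⟨X ^ 5 - 1 + X * X ^ j * (3 * X ^ 6 + 3 * X ^ 3 * ((X ^ 5 + 1) * X ^ j) +
        ((X ^ 5 + 1) * X ^ j) ^ 2), by ring⟩ (11 + 3 * j) (by rw [hf, hP, natDegree_X]; ring)
      (by rw [hP]; omega) m (by rw [hm, natDegree_X]; ring)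

theorem char2_main [IsAlgClosed k] [CharP k 2] [Algebra (ZMod 2) k] (n m : ℕ) (hn : 2 ≤ n)
    (h : n ≤ 3 ∨ 2 ^ (4 * n - 3) ≤ m + 1) :
    (∃ V : Submodule (ZMod 2) (RatFunc k), IsSpaceL 2 m n V) ↔ 2 ^ (n - 1) ∣ m + 1 := by
  obtain ⟨d, rfl⟩ : ∃ d, n = d + 1 := ⟨n - 1, by omega⟩
  rw [Nat.add_sub_cancel]
  refine ⟨fun ⟨V, hV⟩ => necessity 2 m d V hV, fun ⟨l, hl⟩ => ?_⟩
  rcases h with h | h
  · obtain rfl | rfl : d = 1 ∨ d = 2 := by omega
    · exact exists_char2_two l m hl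
    · exact exists_char2_three l m hl
  · rcases Nat.even_or_odd l with he | ho
    · exact exists_char2_easy d l (by rintro rfl; simp at hl) he.two_dvd m hl
    · refine family2_large d l (by omega) ho ?_ m hl
      have e : 2 ^ (4 * (d + 1) - 3) = 2 ^ d * (2 * 8 ^ d) := by
        rw [show 4 * (d + 1) - 3 = d + (3 * d + 1) by omega, pow_add, pow_succ, pow_mul]
        ring
      rw [e, hl] at h
      exact Nat.le_of_mul_le_mul_left h (by positivity)

end Pool.Agent.Lib.MP_f76cdc_ag
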