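import Mathlib

namespace Pool.Agent.Lib.MP_f76cdc_ag

open Polynomial

variable {k : Type*} [Field k]

/-- The derivative `df/dz` of a rational function `f = num/denom`, by the quotient rule. -/
noncomputable def ddz (f : RatFunc k) : RatFunc k :=
  algebraMap k[X] (RatFunc k) (derivative f.num * f.denom - f.num * derivative f.denom) /
    algebraMap k[X] (RatFunc k) (f.denom ^ 2)

/-- The differential `g dz` is logarithmic: `g dz = df/f` for some nonzero `f` in `k(z)`. -/
def IsLogarithmic (g : RatFunc k) : Prop :=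
  ∃ f : RatFunc k, f ≠ 0 ∧ g = ddz f / f

/-- The order of vanishing at infinity of the differential `g dz`, for `g ≠ 0`. -/
noncomputable def ordInfty (g : RatFunc k) : ℤ :=
  -g.intDegree - 2

/-- `V`, read as the space of differentials `g dz` with `g ∈ V`, is a space `L_{m+1,n}`. -/
def IsSpaceL (p : ℕ) [Fact p.Prime] [Algebra (ZMod p) k] (m n : ℕ)
    (V : Submodule (ZMod p) (RatFunc k)) : Prop :=
  Module.finrank (ZMod p) V = n ∧
    ∀ g ∈ V, g ≠ 0 →
      IsLogarithmic g ∧ (∀ x : k, g.num.eval x ≠ 0) ∧ ordInfty g = (m : ℤ) - 1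

end Pool.Agent.Lib.MP_f76cdc_ag
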