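import Pool.Agent.Lib.MP_f76cdc_ag.Char3

namespace Pool.Agent.Lib.MP_f76cdc_ag

open Polynomial

variable {k : Type*} [Field k]

theorem exists_root9 [IsAlgClosed k] : ∃ t : k, t ^ 2 + t + 2 = 0 := by
  obtain ⟨t, ht⟩ := IsAlgClosed.exists_root (X ^ 2 + X + C 2 : k[X]) (by
    have : (X ^ 2 + X + C 2 : k[X]).degree = 2 := by compute_degree!
    rw [this]; decide)
  exact ⟨t, by simpa using ht⟩

theorem exists_L15 [IsAlgClosed k] [Algebra (ZMod 3) k] :
    ∃ V : Submodule (ZMod 3) (RatFunc k), IsSpaceL 3 14 2 V := by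
  obtain ⟨t, ht⟩ := exists_root9 (k := k)
  have h3' : (3 : k) = 0 := three_eq_zero'
  have h3 : (3 : k[X]) = 0 := three_eq_zero
  have hT : (C t : k[X]) ^ 2 + C t + 2 = 0 := by
    have := congrArg (C : k → k[X]) ht
    simpa [map_ofNat] using this
  have t0 : t ≠ 0 := by
    rintro rfl
    exact one_ne_zero (α := k) (by linear_combination h3' - ht)
  have t1 : 1 + t ≠ 0 := by grind
  have t2 : 1 - t ≠ 0 := by grind
  refine exists_space_char3
    (X ^ 5 + C t * X ^ 4 + (C t + 1) * X ^ 2 + (1 - C t) * X + (C t + 1))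
    (C t * X ^ 5 + (1 - C t) * X ^ 4 - (C t + 1) * X ^ 3 + C t * X ^ 2 + (C t - 1) * X)
    5 (by norm_num) (by compute_degree!) (by compute_degree!) (by compute_degree!)
    (by compute_degree!) ?_
  simp only [derivative_mul, derivative_add, derivative_sub, derivative_C,
    derivative_one, derivative_X, derivative_pow, Nat.cast_ofNat, map_ofNat, derivative_ofNat,
    derivative_zero, Nat.add_one_sub_one, Nat.cast_one, map_one]
  generalize C t = T at *
  grind

end Pool.Agent.Lib.MP_f76cdc_ag
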