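import Pool.Agent.Lib.MP_f76cdc_ag.TraceForm

namespace Pool.Agent.Lib.MP_f76cdc_ag

open Polynomial

variable {k : Type*} [Field k]

theorem exists_interp [IsAlgClosed k] (G H : k[X]) (hG : G.Separable) (d : ℕ) (hd : 0 < d)
    (hH : ∀ x, G.eval x = 0 → H.eval x ≠ 0) :
    ∃ g : k[X], g.degree < G.natDegree ∧ G ∣ H * g ^ d - 1 := by
  classical
  have hG0 : G ≠ 0 := hG.ne_zero
  choose r hr using fun x : k => IsAlgClosed.exists_pow_nat_eq (H.eval x)⁻¹ hd
  refine ⟨Lagrange.interpolate G.roots.toFinset id r, ?_, ?_⟩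
  · refine (Lagrange.degree_interpolate_lt r (Set.injOn_id _)).trans_le ?_
    exact_mod_cast (Multiset.toFinset_card_le _).trans (card_roots' G)
  · by_cases h0 : H * (Lagrange.interpolate G.roots.toFinset id r) ^ d - 1 = 0
    · rw [h0]; exact dvd_zero _
    refine (IsAlgClosed.splits G).dvd_of_roots_le_roots hG0 ?_
    rw [Multiset.le_iff_subset (nodup_roots hG)]
    intro x hx
    have hx0 : G.eval x = 0 := (mem_roots hG0).1 hx
    rw [mem_roots h0, IsRoot.def, eval_sub, eval_mul, eval_pow, eval_one]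
    have := Lagrange.eval_interpolate_at_node (s := G.roots.toFinset) (v := id) r
      (Set.injOn_id _) (Multiset.mem_toFinset.2 hx)
    rw [id] at this
    rw [this, hr, mul_inv_cancel₀ (hH x hx0), sub_self]

/-- The sequence `v 0 = u Y`, `v (i+1) = - (v i)^p Y`. -/
def vseq {R : Type*} [CommRing R] (p : ℕ) (u Y : R) : ℕ → R
  | 0 => u * Y
  | i + 1 => -(vseq p u Y i ^ p * Y)

theorem vseq_closed {R : Type*} [CommRing R] (p : ℕ) [Fact p.Prime] [CharP R p] (u Y : R) (i : ℕ) :
    vseq p u Y i = (-1) ^ i * u ^ p ^ i * Y ^ (∑ l ∈ Finset.range (i + 1), p ^ l) := by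
  induction i with
  | zero => simp [vseq]
  | succ i ih =>
    have e : ∑ l ∈ Finset.range (i + 1 + 1), p ^ l =
        (∑ l ∈ Finset.range (i + 1), p ^ l) * p + 1 := by
      rw [Finset.sum_range_succ' _ (i + 1), Finset.sum_mul]
      simp [pow_succ]
    have e2 : ((-1 : R) ^ i) ^ p = (-1) ^ i := by
      rw [← pow_mul, mul_comm, pow_mul, neg_one_pow_char]
    rw [vseq, ih, mul_pow, mul_pow, e2, e, ← pow_mul, ← pow_mul, ← pow_succ]
    ring

theorem vseq_mul {R : Type*} [CommRing R] (p : ℕ) [Fact p.Prime] [CharP R p] (u Y a : R)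
    (h : a * Y + a ^ p = 0) (i : ℕ) : a * vseq p u Y i = -(a ^ p * u) ^ p ^ i := by
  induction i with
  | zero => simp only [vseq, pow_zero, pow_one]; linear_combination u * h
  | succ i ih =>
    have e : (a * vseq p u Y i) ^ p = -(a ^ p * u) ^ p ^ (i + 1) := by
      rw [ih, neg_pow, neg_one_pow_char, ← pow_mul, ← pow_succ]; ring
    rw [vseq, ← e, mul_pow]
    linear_combination (-(vseq p u Y i ^ p)) * h

theorem vseq_sum {R : Type*} [CommRing R] (p : ℕ) [Fact p.Prime] [CharP R p] (u Y : R) (n : ℕ) :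
    (∑ i ∈ Finset.range n, vseq p u Y i) + (∑ i ∈ Finset.range n, vseq p u Y i) ^ p * Y =
      u * Y - vseq p u Y n := by
  induction n with
  | zero => simp [vseq, (Fact.out : p.Prime).ne_zero]
  | succ n ih =>
    rw [Finset.sum_range_succ, add_pow_char, vseq]
    linear_combination ih

theorem eval_vseq (p : ℕ) (u Y : k[X]) (x : k) (i : ℕ) :
    (vseq p u Y i).eval x = vseq p (u.eval x) (Y.eval x) i := by
  induction i with
  | zero => simp [vseq]
  | succ i ih => simp [vseq, ih]

theorem geom_S (p n : ℕ) : p * (∑ l ∈ Finset.range n, p ^ l) + 1 =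
    (∑ l ∈ Finset.range n, p ^ l) + p ^ n := by
  induction n with
  | zero => simp
  | succ n ih => rw [Finset.sum_range_succ, mul_add, pow_succ]; linarith

theorem family1_core (p n : ℕ) [hp : Fact p.Prime] [IsAlgClosed k] [CharP k p]
    [Algebra (ZMod p) k] (Z w : k[X]) (hZ : Z ≠ 0)
    (hΓ : 1 - C ((-1) ^ (n + 1)) * Z ^ (∑ l ∈ Finset.range (n + 1), p ^ l) ≠ 0)
    (hw : derivative w = 1) (m : ℕ)
    (hm : m + 1 + p ^ (n + 1) * Z.natDegree + p ^ n * (p ^ (n + 1) * Z.natDegree + w.natDegree) =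
      p * (p ^ n * (p ^ (n + 1) * Z.natDegree + w.natDegree))) :
    ∃ V : Submodule (ZMod p) (RatFunc k), IsSpaceL p m (n + 1) V := by
  have hp2 := hp.out.two_le
  have hp0 : (p : k[X]) = 0 := CharP.cast_eq_zero _ p
  set S := ∑ l ∈ Finset.range (n + 1), p ^ l with hS
  have hS1 : p * S + 1 = S + p ^ (n + 1) := geom_S p (n + 1)
  have hS2 : S = p * (∑ l ∈ Finset.range n, p ^ l) + 1 := by
    rw [hS, Finset.sum_range_succ, geom_S]
  have hS0 : S ≠ 0 := by omega
  set ε : k := (-1) ^ (n + 1) with hε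
  have hε2 : ε * ε = 1 := by rw [hε, ← mul_pow]; simp
  have hε0 : ε ≠ 0 := by intro h; rw [h] at hε2; simp at hε2
  have hCε2 : (C ε : k[X]) * C ε = 1 := by rw [← C_mul, hε2, C_1]
  have hsep : (X ^ S - C ε : k[X]).Separable := by
    refine separable_X_pow_sub_C' p S ε ?_ hε0
    rw [hS2, Nat.dvd_add_right (dvd_mul_right _ _), Nat.dvd_one]
    omega
  obtain ⟨g0, hg0d, c0, hc0⟩ := exists_interp (X ^ S - C ε) (-X) hsep (p - 1) (by omega) (by
    intro x hx h0
    simp only [eval_neg, eval_X, neg_eq_zero] at h0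
    subst h0
    simp [hS0, hε0] at hx)
  rw [natDegree_X_pow_sub_C] at hg0d
  have hg0d' : g0.natDegree + 1 ≤ S := by
    by_cases h0 : g0 = 0
    · rw [h0, natDegree_zero]; omega
    · have := (natDegree_lt_iff_degree_lt h0).2 hg0d
      omega
  obtain ⟨p', rfl⟩ : ∃ p', p = p' + 1 := ⟨p - 1, by omega⟩
  rw [Nat.add_sub_cancel] at hc0
  set p := p' + 1 with hp'
  set κ0 : k[X] := C ε * c0 * g0 with hκ0
  have hκ0e : g0 + X * g0 ^ p = (1 - C ε * X ^ S) * κ0 := by
    rw [hκ0, hp', pow_succ]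
    linear_combination (-g0) * hc0 + (g0 * c0 * X ^ S) * hCε2
  have hΓ0d : (1 - C ε * X ^ S : k[X]).natDegree = S := by
    rw [natDegree_sub_eq_right_of_natDegree_lt] <;> rw [natDegree_C_mul_X_pow _ _ hε0]
    rw [natDegree_one]; omega
  have hΓ00 : (1 - C ε * X ^ S : k[X]) ≠ 0 := by
    intro h; rw [h, natDegree_zero] at hΓ0d; omega
  have hκ0d : κ0.natDegree ≤ p ^ (n + 1) := by
    by_cases h0 : κ0 = 0
    · rw [h0, natDegree_zero]; omega
    have h1 := congrArg natDegree hκ0e
    rw [natDegree_mul hΓ00 h0, hΓ0d] at h1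
    have h2 : (g0 + X * g0 ^ p).natDegree ≤ 1 + p * g0.natDegree := by
      refine (natDegree_add_le _ _).trans (max_le ?_ ?_)
      · nlinarith
      · refine natDegree_mul_le.trans ?_
        rw [natDegree_X, natDegree_pow]
    have h3 : p * (g0.natDegree + 1) ≤ p * S := Nat.mul_le_mul_left _ hg0d'
    rw [mul_add] at h3
    omega
  set g := g0.comp Z with hg
  set κ := κ0.comp Z with hκ
  set Γ : k[X] := 1 - C ε * Z ^ S with hΓdef
  have hκe : g + Z * g ^ p = Γ * κ := by
    have := congrArg (fun q => q.comp Z) hκ0e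
    simpa [hg, hκ, hΓdef] using this
  have hunit : ∀ x, Γ.eval x = 0 → g.eval x ≠ 0 := by
    intro x hx h0
    have h1 := congrArg (fun q => q.eval (Z.eval x)) hc0
    simp only [hΓdef, eval_sub, eval_one, eval_mul, eval_C, eval_pow] at hx
    rw [hg, eval_comp] at h0
    simp only [eval_sub, eval_mul, eval_neg, eval_X, eval_pow, eval_one, eval_C, h0] at h1
    rw [zero_pow (by omega)] at h1
    have h2 : Z.eval x ^ S - ε = 0 := by linear_combination (-ε) * hx - (Z.eval x ^ S) * hε2
    rw [h2] at h1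
    simp at h1
  have hw0 : w ≠ 0 := by rintro rfl; simp at hw
  have hwd : 1 ≤ w.natDegree := by
    by_contra h0
    have : w.natDegree = 0 := by omega
    rw [natDegree_eq_zero] at this
    obtain ⟨c, rfl⟩ := this
    simp at hw
  have hΓd : Γ.natDegree = S * Z.natDegree := by
    rcases Nat.eq_zero_or_pos Z.natDegree with h0 | h0
    · rw [h0, mul_zero]
      refine Nat.eq_zero_of_le_zero ((natDegree_sub_le _ _).trans ?_)
      rw [natDegree_one, natDegree_C_mul hε0, natDegree_pow, h0]; simp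
    · rw [hΓdef, natDegree_sub_eq_right_of_natDegree_lt] <;>
        rw [natDegree_C_mul hε0, natDegree_pow]
      rw [natDegree_one]
      exact Nat.mul_pos (by omega) h0
  set ρ : k[X] := κ + Z * Γ ^ p' * w with hρ
  have hρd : ρ.natDegree = p ^ (n + 1) * Z.natDegree + w.natDegree := by
    have h1 : (Z * Γ ^ p' * w).natDegree = p ^ (n + 1) * Z.natDegree + w.natDegree := by
      rw [natDegree_mul (mul_ne_zero hZ (pow_ne_zero _ hΓ)) hw0,
        natDegree_mul hZ (pow_ne_zero _ hΓ), natDegree_pow, hΓd]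
      have : p' * S + 1 = p ^ (n + 1) := by rw [hp'] at hS1 ⊢; linarith
      rw [← this]; ring
    have h2 : κ.natDegree ≤ p ^ (n + 1) * Z.natDegree := by
      rw [hκ, natDegree_comp]; exact Nat.mul_le_mul_right _ hκ0d
    rw [hρ, natDegree_add_eq_right_of_natDegree_lt (by omega), h1]
  set u : k[X] := -w - ρ ^ p with hu
  have hud : u.natDegree = p * (p ^ (n + 1) * Z.natDegree + w.natDegree) := by
    have h1 : 2 * ρ.natDegree ≤ p * ρ.natDegree := Nat.mul_le_mul_right _ hp2
    rw [hu, natDegree_sub_eq_right_of_natDegree_lt, natDegree_pow, hρd]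
    rw [natDegree_neg, natDegree_pow]; omega
  set W : k[X] := w * Γ ^ p + g ^ p with hW
  have hWe : W + Z ^ p * W ^ p = -(Γ ^ p * u) := by
    have h1 := congrArg (· ^ p) hκe
    simp only [add_pow_char, mul_pow] at h1
    have h2 : (Γ ^ p) ^ p = Γ ^ p * (Γ ^ p') ^ p := by rw [← mul_pow, ← pow_succ', ← hp']
    rw [hW, hu, hρ]
    simp only [add_pow_char, mul_pow]
    rw [h2]
    linear_combination h1
  set Y : k[X] := Z ^ p ^ (n + 1) with hY
  have hΓq : Γ ^ p ^ (n + 1) = 1 - C ε * Y ^ S := by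
    have e : ε ^ p ^ (n + 1) = ε := by
      rw [hε, ← pow_mul, mul_comm, pow_mul, neg_one_pow_char_pow]
    rw [hΓdef, sub_pow_char_pow, one_pow, mul_pow, ← C_pow, e, hY, ← pow_mul, ← pow_mul,
      mul_comm S]
  set s : k[X] := -W ^ p ^ n + ∑ i ∈ Finset.range n, vseq p u Y i with hs
  have hse : Y * (s ^ p - u) = 1 * (u ^ p ^ n - s) := by
    have h1 := congrArg (· ^ p ^ n) hWe
    simp only [add_pow_char_pow, mul_pow, neg_pow (Γ ^ p * u), neg_one_pow_char_pow] at h1
    rw [← pow_mul Z, ← pow_mul Γ, ← pow_succ', ← hY, hΓq, ← pow_mul W, mul_comm p,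
      pow_mul W] at h1
    have h2 := vseq_sum p u Y n
    have h3 := vseq_closed p u Y n
    rw [← hS] at h3
    have h4 : (C ε : k[X]) = -(-1) ^ n := by rw [hε, C_pow, C_neg, C_1, pow_succ]; ring
    rw [h4] at h1
    rw [hs, add_pow_char, neg_pow (W ^ p ^ n), neg_one_pow_char]
    linear_combination h2 - h1 - h3
  have hroot : ∀ a : k, a ≠ 0 → a ^ p ^ (n + 1) = a → ∀ x : k,
      a * Y.eval x + a ^ p = 0 → Γ.eval x = 0 := by
    intro a ha haq x hx
    have h1 := vseq_mul p 1 (Y.eval x) a hx n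
    rw [vseq_closed, ← hS, mul_one, ← pow_mul, ← pow_succ', haq, one_pow, mul_one] at h1
    have h2 : (-1) ^ n * Y.eval x ^ S = -1 := by
      apply mul_left_cancel₀ ha
      linear_combination h1
    have h3 := congrArg (eval x) hΓq
    simp only [eval_pow, eval_sub, eval_one, eval_mul, eval_C] at h3
    rw [hε, pow_succ (-1 : k)] at h3
    refine (pow_eq_zero_iff (n := p ^ (n + 1)) (pow_ne_zero _ (by omega))).1 ?_
    rw [h3]
    linear_combination h2
  have hYd : Y.natDegree = p ^ (n + 1) * Z.natDegree := by rw [hY, natDegree_pow]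
  refine exists_space_of_eqs p n s u Y 1 ?_ derivative_one (pow_ne_zero _ hZ) one_ne_zero ?_
    isCoprime_one_right hse (by simp) ?_ ?_ ?_ ?_ m ?_
  · rw [hY, derivative_pow, C_eq_natCast, Nat.cast_pow, hp0]; simp
  · rw [hu, derivative_sub, derivative_neg, hw, derivative_pow, C_eq_natCast, hp0]; simp
  · rw [hud]; exact Nat.mul_pos (by omega) (by omega)
  · intro a ha haq h0
    apply hΓ
    apply Polynomial.funext
    intro x
    have h1 := congrArg (eval x) h0
    simp only [eval_add, eval_mul, eval_C, mul_one, eval_zero] at h1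
    rw [hroot a ha haq x h1, eval_zero]
  · intro a ha haq
    rw [mul_one, natDegree_add_C, natDegree_C_mul ha]
  · intro a ha haq x hx
    rw [eval_one, mul_one] at hx
    have h1 := hroot a ha haq x hx
    have h2 := hunit x h1
    have h3 : a * s.eval x + ∑ i ∈ Finset.range n, (a ^ p * u.eval x) ^ p ^ i =
        -(a * (g.eval x ^ p) ^ p ^ n) := by
      rw [hs, eval_add, eval_finsetSum, mul_add, Finset.mul_sum]
      simp only [eval_vseq, vseq_mul p _ _ a hx]
      rw [Finset.sum_neg_distrib, hW]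
      simp only [eval_neg, eval_pow, eval_add, eval_mul, h1]
      rw [zero_pow (by omega)]
      ring
    rw [h3]
    exact neg_ne_zero.2 (mul_ne_zero ha (pow_ne_zero _ (pow_ne_zero _ h2)))
  · rw [hYd, hud]
    have := congrArg (p * ·) hm
    simp only [mul_add] at this ⊢
    linarith

/-- The first family, in every characteristic. -/
theorem family1 (p n j c : ℕ) [hp : Fact p.Prime] [IsAlgClosed k] [CharP k p]
    [Algebra (ZMod p) k] (hc : c = 1 ∨ (p ∣ c ∧ c ≠ 0)) (m : ℕ)
    (hm : m + 1 + p ^ (n + 1) * j + p ^ n * (p ^ (n + 1) * j + c) =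
      p * (p ^ n * (p ^ (n + 1) * j + c))) :
    ∃ V : Submodule (ZMod p) (RatFunc k), IsSpaceL p m (n + 1) V := by
  have hp2 := hp.out.two_le
  set S := ∑ l ∈ Finset.range (n + 1), p ^ l with hS
  have hS2 : S = p * (∑ l ∈ Finset.range n, p ^ l) + 1 := by
    rw [hS, Finset.sum_range_succ, geom_S]
  have hS0 : S ≠ 0 := by omega
  obtain ⟨w, hw, hwd⟩ : ∃ w : k[X], derivative w = 1 ∧ w.natDegree = c := by
    rcases hc with rfl | ⟨h1, h2⟩
    · exact ⟨X, derivative_X, natDegree_X⟩
    · refine ⟨X + X ^ c, ?_, ?_⟩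
      · rw [derivative_add, derivative_X, derivative_X_pow, (CharP.cast_eq_zero_iff k p c).2 h1]
        simp
      · have := Nat.le_of_dvd (by omega) h1
        rw [natDegree_add_eq_right_of_natDegree_lt] <;> rw [natDegree_X_pow]
        rw [natDegree_X]; omega
  have hne : (X * (1 - C ((-1 : k) ^ (n + 1)) * X ^ S) : k[X]) ≠ 0 := by
    refine mul_ne_zero X_ne_zero fun h => ?_
    have := congrArg (eval 0) h
    simp [hS0] at this
  obtain ⟨a, ha⟩ : ∃ a : k, (X * (1 - C ((-1 : k) ^ (n + 1)) * X ^ S) : k[X]).eval a ≠ 0 := by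
    by_contra hcon
    push Not at hcon
    exact hne (Polynomial.funext (by simpa using hcon))
  simp only [eval_mul, eval_X, eval_sub, eval_one, eval_C, eval_pow] at ha
  have ha0 : a ≠ 0 := left_ne_zero_of_mul ha
  refine family1_core p n (C a * X ^ j) w (mul_ne_zero (C_ne_zero.2 ha0) (pow_ne_zero _ X_ne_zero))
    ?_ hw m ?_
  · intro h
    have := congrArg (eval 1) h
    simp only [eval_mul, eval_X, eval_sub, eval_one, eval_C, eval_pow, one_pow, mul_one,
      eval_zero] at this
    exact right_ne_zero_of_mul ha this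
  · rw [natDegree_C_mul_X_pow _ _ ha0, hwd]; exact hm

end Pool.Agent.Lib.MP_f76cdc_ag
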