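import Pool.Agent.Lib.MP_f76cdc_ag.Family1

namespace Pool.Agent.Lib.MP_f76cdc_ag

open Polynomial

variable {k : Type*} [Field k]

/-- Exponents `e 0 = N`, `e (i+1) = 2 e i + N + 1`. -/
def eseq (N : ℕ) : ℕ → ℕ
  | 0 => N
  | i + 1 => 2 * eseq N i + (N + 1)

theorem eseq_add (N i : ℕ) : eseq N i + (N + 1) = (2 * N + 1) * 2 ^ i := by
  induction i with
  | zero => simp [eseq]; ring
  | succ i ih => rw [eseq, pow_succ]; linarith

theorem family2_core (n N : ℕ) (hN : N + 1 = 2 ^ n) [IsAlgClosed k] [CharP k 2]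
    [Algebra (ZMod 2) k] (f s P Q : k[X]) (hn : 1 ≤ n) (hP : P ≠ 0)
    (hfs : derivative (f * s) = 1) (hb : s * P ^ N + f * Q = 1)
    (hdeg : P.natDegree < Q.natDegree) (m : ℕ)
    (hm : m + 1 + 2 ^ n * Q.natDegree = 2 ^ n * (s.natDegree + N * Q.natDegree)) :
    ∃ V : Submodule (ZMod 2) (RatFunc k), IsSpaceL 2 m (n + 1) V := by
  have h2 : (2 : k[X]) = 0 := CharP.cast_eq_zero _ 2
  have h2k : (2 : k) = 0 := CharP.cast_eq_zero _ 2
  have hN1 : 1 ≤ N := by
    have : 2 ^ 1 ≤ 2 ^ n := Nat.pow_le_pow_right (by omega) hn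
    omega
  have hf0 : f ≠ 0 := by rintro rfl; simp at hfs
  have hs0 : s ≠ 0 := by rintro rfl; simp at hfs
  have hQ0 : Q ≠ 0 := by rintro rfl; simp at hdeg
  have hPQ : IsCoprime Q P := by
    refine ⟨f, s * P ^ (N - 1), ?_⟩
    rw [← hb, mul_assoc s, ← pow_succ, Nat.sub_add_cancel hN1]; ring
  have hcast : ((2 ^ n : ℕ) : k) = 0 := by
    rw [Nat.cast_pow, Nat.cast_ofNat, h2k, zero_pow (by omega)]
  have hdpow : ∀ F : k[X], derivative (F ^ 2 ^ n) = 0 := by
    intro F; rw [derivative_pow, hcast]; simp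
  set a : ℕ → k[X] := fun i => s ^ 2 ^ (i + 1) * Q ^ eseq N i * P ^ (2 ^ n - 2 ^ i) with ha
  have hrec : ∀ i, i < n → Q ^ 2 ^ n * a i ^ 2 = P ^ 2 ^ n * a (i + 1) := by
    intro i hi
    have h1 : 2 ^ (i + 1) ≤ 2 ^ n := Nat.pow_le_pow_right (by omega) hi
    have h3 : 2 ^ n + (2 ^ n - 2 ^ (i + 1)) = (2 ^ n - 2 ^ i) * 2 := by
      rw [pow_succ] at h1 ⊢; omega
    simp only [ha, eseq, mul_pow]
    rw [← pow_mul P, ← h3, hN, pow_succ 2 (i + 1)]
    ring
  have hsum : ∀ j, j ≤ n → Q ^ 2 ^ n * (∑ i ∈ Finset.range j, a i) ^ 2 +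
      P ^ 2 ^ n * ∑ i ∈ Finset.range j, a i = P ^ 2 ^ n * (a 0 + a j) := by
    intro j hj
    induction j with
    | zero =>
      rw [Finset.sum_range_zero]
      linear_combination (-(P ^ 2 ^ n * a 0)) * h2
    | succ j ih =>
      rw [Finset.sum_range_succ, add_pow_char]
      linear_combination ih (by omega) + hrec j (by omega) + (P ^ 2 ^ n * a j) * h2
  have ha0 : a 0 = s ^ 2 * Q ^ N * P ^ N := by
    simp only [ha, eseq]
    rw [← hN]; simp
  have han : a n = (s ^ 2 * Q ^ (2 * N)) ^ 2 ^ n := by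
    have : eseq N n = 2 * N * 2 ^ n := by have := eseq_add N n; rw [hN] at this; linarith
    simp only [ha]
    rw [this, Nat.sub_self, mul_pow, ← pow_mul, ← pow_mul, pow_succ']
    simp
  set u : k[X] := f * s * P ^ 2 ^ n + s ^ 2 * Q ^ (2 * N) with hu
  set σ : k[X] := f ^ 2 ^ n * P ^ 2 ^ n + s * Q ^ N + ∑ i ∈ Finset.range n, a i with hσ
  have hfQ : f * Q = 1 + s * P ^ N := by linear_combination hb - (s * P ^ N) * h2
  have heq : Q ^ 2 ^ n * (σ ^ 2 - u) = P ^ 2 ^ n * (u ^ 2 ^ n - σ) := by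
    have h1 := hsum n le_rfl
    have h3 := congrArg (· ^ 2 ^ n) hfQ
    simp only [add_pow_char_pow, one_pow, mul_pow] at h3
    have h4 : (P ^ 2 ^ n) ^ 2 ^ n = (P ^ N) ^ 2 ^ n * P ^ 2 ^ n := by
      rw [← mul_pow, ← pow_succ, hN]
    have h5 : Q ^ 2 ^ n = Q * Q ^ N := by rw [← hN, pow_succ']
    have h6 : Q ^ (2 * N) = (Q ^ N) ^ 2 := by rw [mul_comm, pow_mul]
    rw [ha0, han] at h1
    rw [hσ, hu, add_pow_char, add_pow_char, add_pow_char_pow, mul_pow (f * s), mul_pow f s, h4]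
    generalize (s ^ 2 * Q ^ (2 * N)) ^ 2 ^ n = E at *
    generalize (∑ i ∈ Finset.range n, a i) = T at *
    rw [h6]
    generalize (P ^ N) ^ 2 ^ n = P2 at *
    generalize P ^ 2 ^ n = P1 at *
    generalize f ^ 2 ^ n = f1 at *
    generalize s ^ 2 ^ n = s1 at *
    generalize Q ^ 2 ^ n = Q1 at *
    generalize Q ^ N = QN at *
    generalize P ^ N = PN at *
    subst h5
    linear_combination h1 + (f1 * P1 ^ 2) * h3 - (P1 * s * QN) * hfQ +
      (f1 * P1 ^ 2 + P1 * T - P1 * T) * h2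
  have hdd : s.natDegree + N * P.natDegree = f.natDegree + Q.natDegree := by
    have h1 := congrArg natDegree hfQ
    rw [natDegree_mul hf0 hQ0, add_comm (1 : k[X]), ← C_1, natDegree_add_C,
      natDegree_mul hs0 (pow_ne_zero _ hP), natDegree_pow] at h1
    omega
  have hud : u.natDegree = 2 * (s.natDegree + N * Q.natDegree) := by
    have h1 : (s ^ 2 * Q ^ (2 * N)).natDegree = 2 * (s.natDegree + N * Q.natDegree) := by
      rw [natDegree_mul (pow_ne_zero _ hs0) (pow_ne_zero _ hQ0), natDegree_pow, natDegree_pow]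
      ring
    rw [hu, natDegree_add_eq_right_of_natDegree_lt, h1]
    rw [h1, natDegree_mul (mul_ne_zero hf0 hs0) (pow_ne_zero _ hP), natDegree_mul hf0 hs0,
      natDegree_pow, ← hN]
    nlinarith
  have hyd : ∀ b : k, b ≠ 0 → (C b * Q ^ 2 ^ n + C (b ^ 2) * P ^ 2 ^ n).natDegree =
      (Q ^ 2 ^ n).natDegree := by
    intro b hb0
    rw [natDegree_add_eq_left_of_natDegree_lt, natDegree_C_mul hb0]
    rw [natDegree_C_mul hb0, natDegree_C_mul (pow_ne_zero _ hb0), natDegree_pow, natDegree_pow]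
    exact Nat.mul_lt_mul_of_pos_left hdeg (by positivity)
  refine exists_space_of_eqs 2 n σ u (Q ^ 2 ^ n) (P ^ 2 ^ n) (hdpow Q) (hdpow P)
    (pow_ne_zero _ hQ0) (pow_ne_zero _ hP) ?_ hPQ.pow heq ?_ ?_ ?_ (fun b hb0 _ => hyd b hb0) ?_ m ?_
  · have e : derivative (s ^ 2 * Q ^ (2 * N)) = 0 := by
      rw [pow_mul', ← mul_pow, derivative_pow]
      simp [h2k]
    rw [hu, derivative_add, e, derivative_mul, hfs, hdpow]
    linear_combination (P ^ 2 ^ n) * h2
  · rw [natDegree_pow, natDegree_pow]; exact Nat.mul_le_mul_left _ hdeg.le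
  · rw [hud]; nlinarith
  · intro b hb0 _ h0
    have := hyd b hb0
    rw [h0, natDegree_zero, natDegree_pow] at this
    have h3 : 0 < 2 ^ n * Q.natDegree := Nat.mul_pos (by positivity) (by omega)
    omega
  · intro b hb0 hbq x hx
    simp only [eval_pow] at hx
    have hPx : P.eval x ≠ 0 := by
      intro h0
      have h1 := congrArg (eval x) hb
      rw [h0, zero_pow (by positivity)] at hx
      have h3 : Q.eval x = 0 := by
        have : Q.eval x ^ 2 ^ n = 0 := by
          apply mul_left_cancel₀ hb0; linear_combination hx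
        exact (pow_eq_zero_iff (by positivity)).1 this
      simp [h0, h3, zero_pow (show N ≠ 0 by omega)] at h1
    have hQ1 : Q.eval x ^ 2 ^ n = b * P.eval x ^ 2 ^ n := by
      apply mul_left_cancel₀ hb0
      linear_combination hx - (b ^ 2 * P.eval x ^ 2 ^ n) * h2k
    have hQx : Q.eval x = b ^ 2 * P.eval x := by
      have : (Q.eval x - b ^ 2 * P.eval x) ^ 2 ^ n = 0 := by
        rw [sub_pow_char_pow, mul_pow, ← pow_mul b, ← pow_succ', hbq, hQ1, sub_self]
      exact sub_eq_zero.1 ((pow_eq_zero_iff (by positivity)).1 this)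
    have hb1 : b * (b ^ 2) ^ N = 1 := by
      apply mul_left_cancel₀ hb0
      rw [pow_succ, ← hN] at hbq
      rw [mul_one]
      conv_rhs => rw [← hbq]
      ring
    set μ : k := s.eval x * P.eval x ^ N with hμ
    have hfx : f.eval x * Q.eval x = 1 + μ := by
      have := congrArg (eval x) hfQ
      simpa using this
    have hai : ∀ i, i ≤ n → b * (a i).eval x = μ ^ 2 ^ (i + 1) := by
      intro i hi
      induction i with
      | zero =>
        rw [ha0]
        simp only [eval_mul, eval_pow, hQx, mul_pow, hμ]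
        linear_combination (s.eval x ^ 2 * (P.eval x ^ N) ^ 2) * hb1
      | succ i ih =>
        have h1 := congrArg (eval x) (hrec i (by omega))
        simp only [eval_mul, eval_pow, hQ1] at h1
        have h3 : (a (i + 1)).eval x = b * (a i).eval x ^ 2 := by
          apply mul_left_cancel₀ (pow_ne_zero (2 ^ n) hPx)
          linear_combination -h1
        rw [h3, pow_succ 2 (i + 1), pow_mul, ← ih (by omega)]
        ring
    have hux : b ^ 2 * u.eval x = μ := by
      have h5 : P.eval x ^ 2 ^ n = P.eval x * P.eval x ^ N := by rw [← hN, pow_succ']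
      rw [hu]
      simp only [eval_add, eval_mul, eval_pow]
      rw [h5, pow_mul', hQx, mul_pow]
      rw [hQx] at hfx
      linear_combination μ * hfx + (μ ^ 2 * (b * (b ^ 2) ^ N + 1)) * hb1 + μ ^ 2 * h2k
    have htel : ∀ j, ∑ i ∈ Finset.range j, μ ^ 2 ^ (i + 1) + ∑ i ∈ Finset.range j, μ ^ 2 ^ i =
        μ + μ ^ 2 ^ j := by
      intro j
      induction j with
      | zero => simp; linear_combination (-μ) * h2k
      | succ j ih =>
        rw [Finset.sum_range_succ, Finset.sum_range_succ]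
        linear_combination ih + (μ ^ 2 ^ j) * h2k
    have hS : b * (∑ i ∈ Finset.range n, a i).eval x = ∑ i ∈ Finset.range n, μ ^ 2 ^ (i + 1) := by
      rw [eval_finsetSum, Finset.mul_sum]
      exact Finset.sum_congr rfl fun i hi => hai i (Finset.mem_range.1 hi).le
    have h7 := congrArg (· ^ 2 ^ n) hfx
    simp only [add_pow_char_pow, one_pow, mul_pow, hQ1] at h7
    have h8 : b * (s.eval x * Q.eval x ^ N) = μ := by
      rw [hQx, mul_pow]
      linear_combination μ * hb1
    have h9 : b * σ.eval x + ∑ i ∈ Finset.range n, (b ^ 2 * u.eval x) ^ 2 ^ i = 1 := by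
      rw [hux, hσ]
      simp only [eval_add, eval_mul, eval_pow]
      linear_combination h7 + h8 + hS + htel n + (μ + μ ^ 2 ^ n) * h2k
    rw [h9]; exact one_ne_zero
  · rw [hud, natDegree_pow]
    linarith

end Pool.Agent.Lib.MP_f76cdc_ag
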