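import Pool.Agent.Lib.MP_f76cdc_ag.Basic

namespace Pool.Agent.Lib.MP_f76cdc_ag

open Polynomial

variable {k : Type*} [Field k]

theorem prod_X_sub_zmod (p : ℕ) [hp : Fact p.Prime] [Algebra (ZMod p) k] :
    ∏ a : ZMod p, (X - C (algebraMap (ZMod p) k a)) = (X ^ p - X : k[X]) := by
  have h1 : (X ^ p - X : (ZMod p)[X]).roots = Finset.univ.val := by
    have := FiniteField.roots_X_pow_card_sub_X (ZMod p)
    rwa [ZMod.card] at this
  have h2 := FiniteField.X_pow_card_sub_X_natDegree_eq (ZMod p) hp.out.one_lt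
  have hm : (X ^ p - X : (ZMod p)[X]).Monic := by
    apply Monic.sub_of_left (monic_X_pow p)
    rw [degree_X_pow, degree_X]
    exact_mod_cast hp.out.one_lt
  have h3 := prod_multiset_X_sub_C_of_monic_of_roots_card_eq hm (by
    rw [h1, h2]; simp)
  rw [h1] at h3
  have h4 := congrArg (Polynomial.map (algebraMap (ZMod p) k)) h3
  rw [Polynomial.map_sub, Polynomial.map_pow, map_X] at h4
  rw [← h4]
  change _ = Polynomial.map _ (∏ a : ZMod p, (X - C a))
  rw [Polynomial.map_prod]
  simp

theorem natCast_p_eq_zero (p : ℕ) [Fact p.Prime] [Algebra (ZMod p) k] : (p : k) = 0 := by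
  have := map_natCast (algebraMap (ZMod p) k) p
  rw [ZMod.natCast_self, map_zero] at this
  exact this.symm

theorem deriv_Phi (p : ℕ) [hp : Fact p.Prime] [Algebra (ZMod p) k] :
    derivative (∏ a : ZMod p, (X - C (algebraMap (ZMod p) k a)) ^ a.val) * (X ^ p - X) =
      -X * ∏ a : ZMod p, (X - C (algebraMap (ZMod p) k a)) ^ a.val := by
  classical
  have hp0 : (p : k[X]) = 0 := by
    rw [← C_eq_natCast, natCast_p_eq_zero p, map_zero]
  set f : ZMod p → k[X] := fun a => X - C (algebraMap (ZMod p) k a) with hf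
  have hprod : ∏ a, f a = X ^ p - X := prod_X_sub_zmod p
  have hdf : ∀ a, derivative (f a) = 1 := by intro a; simp [hf]
  have hsum : ∑ a, ∏ b ∈ Finset.univ.erase a, f b = -1 := by
    have := congrArg derivative hprod
    rw [derivative_prod_finset] at this
    simp only [hdf, mul_one] at this
    rw [this, derivative_sub, derivative_X_pow, derivative_X, C_eq_natCast, hp0]
    ring
  have hsum2 : ∑ a, C (algebraMap (ZMod p) k a) * ∏ b ∈ Finset.univ.erase a, f b = -X := by
    have e : ∀ a, C (algebraMap (ZMod p) k a) * ∏ b ∈ Finset.univ.erase a, f b =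
        X * ∏ b ∈ Finset.univ.erase a, f b - (X ^ p - X) := by
      intro a
      rw [← hprod, ← Finset.mul_prod_erase Finset.univ f (Finset.mem_univ a)]
      simp only [hf]; ring
    simp only [e]
    rw [Finset.sum_sub_distrib, ← Finset.mul_sum, hsum, Finset.sum_const, Finset.card_univ,
      ZMod.card, nsmul_eq_mul, hp0]
    ring
  rw [derivative_prod_finset, ← hsum2, Finset.sum_mul, Finset.sum_mul]
  refine Finset.sum_congr rfl fun a _ => ?_
  rw [← hprod, ← Finset.mul_prod_erase Finset.univ f (Finset.mem_univ a),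
    ← Finset.mul_prod_erase Finset.univ (fun b => f b ^ b.val) (Finset.mem_univ a),
    derivative_pow, hdf]
  have hc : (C ((a.val : ℕ) : k) : k[X]) = C (algebraMap (ZMod p) k a) := by
    congr 1
    rw [← map_natCast (algebraMap (ZMod p) k), ZMod.natCast_zmod_val]
  rw [hc]
  rcases Nat.eq_zero_or_pos a.val with h0 | h0
  · have : a = 0 := (ZMod.val_eq_zero a).1 h0
    subst this
    simp
  · obtain ⟨v, hv⟩ : ∃ v, a.val = v + 1 := ⟨a.val - 1, by omega⟩
    rw [hv, Nat.add_sub_cancel]
    ring

/-- The basic construction: if `t^p - t = R y` with `R' = 1`, `y' = 0` and `t, y` coprime, then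
`t dz / R` is logarithmic, with no zero on the affine line. -/
theorem good_of_AS (p : ℕ) [hp : Fact p.Prime] [Algebra (ZMod p) k] (t R y : k[X])
    (h : t ^ p - t = R * y) (hR : derivative R = 1) (hy : derivative y = 0) (hy0 : y ≠ 0)
    (hc : IsCoprime t y) :
    t ≠ 0 ∧ t.natDegree ≤ R.natDegree ∧
    IsLogarithmic (algebraMap k[X] (RatFunc k) t / algebraMap k[X] (RatFunc k) R) ∧
    (∀ x : k, (algebraMap k[X] (RatFunc k) t / algebraMap k[X] (RatFunc k) R).num.eval x ≠ 0) ∧
    ordInfty (algebraMap k[X] (RatFunc k) t / algebraMap k[X] (RatFunc k) R) =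
      (R.natDegree : ℤ) - t.natDegree - 2 := by
  have hp0 : (p : k[X]) = 0 := by
    rw [← C_eq_natCast, natCast_p_eq_zero p, map_zero]
  have hR0 : R ≠ 0 := by rintro rfl; simp at hR
  have hne : t ^ p - t ≠ 0 := by rw [h]; exact mul_ne_zero hR0 hy0
  have ht0 : t ≠ 0 := by
    rintro rfl
    simp [hp.out.ne_zero] at hne
  have hdt : derivative t = -y := by
    have := congrArg derivative h
    rw [derivative_sub, derivative_pow, derivative_mul, hR, hy, C_eq_natCast, hp0] at this
    linear_combination -this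
  have hdvd : t ∣ R := by
    apply hc.dvd_of_dvd_mul_right
    rw [← h]
    exact dvd_sub (dvd_pow_self t hp.out.ne_zero) dvd_rfl
  obtain ⟨P, hP⟩ := hdvd
  have hP0 : P ≠ 0 := by rintro rfl; simp [hP] at hR0
  have hdeg : R.natDegree = t.natDegree + P.natDegree := by rw [hP, natDegree_mul ht0 hP0]
  have hg : algebraMap k[X] (RatFunc k) t / algebraMap k[X] (RatFunc k) R =
      algebraMap k[X] (RatFunc k) 1 / algebraMap k[X] (RatFunc k) P := by
    rw [div_eq_div_iff (am_ne_zero hR0) (am_ne_zero hP0), ← map_mul, ← map_mul, hP, one_mul]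
  refine ⟨ht0, by omega, ?_, ?_, ?_⟩
  · set Φ : k[X] := ∏ a : ZMod p, (X - C (algebraMap (ZMod p) k a)) ^ a.val with hΦ
    have h1 := congrArg (fun q => q.comp t) (deriv_Phi (k := k) p)
    simp only [mul_comp, sub_comp, neg_comp, pow_comp, X_comp] at h1
    rw [← hΦ] at h1
    have hF0 : Φ.comp t ≠ 0 := by
      rw [hΦ, Polynomial.prod_comp]
      refine Finset.prod_ne_zero_iff.2 fun a _ => ?_
      simp only [pow_comp, sub_comp, X_comp, C_comp]
      refine pow_ne_zero _ fun h0 => hne ?_
      have h2 := congrArg (fun q => q.comp t) (prod_X_sub_zmod (k := k) p)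
      simp only [Polynomial.prod_comp, sub_comp, pow_comp, X_comp, C_comp] at h2
      rw [← h2]
      exact Finset.prod_eq_zero (Finset.mem_univ a) h0
    refine isLog_of_wronskian (Φ.comp t) 1 t R hF0 one_ne_zero hR0 ?_
    rw [derivative_comp, hdt, derivative_one]
    rw [h] at h1
    linear_combination h1
  · rw [hg]; exact (good_inv P hP0).1
  · rw [hg, (good_inv P hP0).2, hdeg]; push_cast; ring

end Pool.Agent.Lib.MP_f76cdc_ag
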