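import Pool.Agent.Lib.MP_f76cdc_ag.LogForm

namespace Pool.Agent.Lib.MP_f76cdc_ag

open Polynomial

variable {k : Type*} [Field k]

/-- A family of good forms indexed additively by the field with `p ^ n` elements spans a space. -/
theorem exists_space_of_family (p n m : ℕ) [hp : Fact p.Prime] [IsAlgClosed k]
    [Algebra (ZMod p) k] (hn : n ≠ 0) (w : k → RatFunc k) (hadd : ∀ a b, w (a + b) = w a + w b)
    (hw : ∀ a : k, a ≠ 0 → a ^ p ^ n = a → w a ≠ 0 ∧ IsLogarithmic (w a) ∧
      (∀ x : k, (w a).num.eval x ≠ 0) ∧ ordInfty (w a) = (m : ℤ) - 1) :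
    ∃ V : Submodule (ZMod p) (RatFunc k), IsSpaceL p m n V := by
  let ι : GaloisField p n →ₐ[ZMod p] k := IsAlgClosed.lift
  have hι : Function.Injective ι := ι.toRingHom.injective
  have hq : ∀ a : GaloisField p n, (ι a) ^ p ^ n = ι a := by
    intro a
    have := Fintype.ofFinite (GaloisField p n)
    have hc : Fintype.card (GaloisField p n) = p ^ n := by
      rw [← Nat.card_eq_fintype_card, GaloisField.card p n hn]
    rw [← map_pow, ← hc, FiniteField.pow_card]
  let f : GaloisField p n →+ RatFunc k :=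
    AddMonoidHom.mk' (fun a => w (ι a)) (fun a b => by simp only [map_add, hadd])
  let L : GaloisField p n →ₗ[ZMod p] RatFunc k := f.toZModLinearMap p
  have hL : ∀ a, L a = w (ι a) := fun a => rfl
  have hinj : Function.Injective L := by
    rw [injective_iff_map_eq_zero]
    intro a ha
    by_contra h0
    exact (hw (ι a) ((map_ne_zero_iff ι hι).2 h0) (hq a)).1 (hL a ▸ ha)
  refine ⟨LinearMap.range L, ?_, ?_⟩
  · rw [LinearMap.finrank_range_of_inj hinj, GaloisField.finrank p hn]
  · rintro g ⟨a, rfl⟩ hg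
    have h0 : a ≠ 0 := by rintro rfl; simp at hg
    rw [hL]
    exact (hw (ι a) ((map_ne_zero_iff ι hι).2 h0) (hq a)).2

theorem exists_space_of_eqs (p n : ℕ) [hp : Fact p.Prime] [IsAlgClosed k] [CharP k p]
    [Algebra (ZMod p) k] (s u A B : k[X]) (hA : derivative A = 0) (hB : derivative B = 0)
    (hA0 : A ≠ 0) (hB0 : B ≠ 0) (hu : derivative u = -B) (hAB : IsCoprime A B)
    (heq : A * (s ^ p - u) = B * (u ^ p ^ n - s))
    (hdeg : B.natDegree ≤ A.natDegree) (hud : 1 ≤ u.natDegree)
    (hy0 : ∀ a : k, a ≠ 0 → a ^ p ^ (n + 1) = a → C a * A + C (a ^ p) * B ≠ 0)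
    (hy : ∀ a : k, a ≠ 0 → a ^ p ^ (n + 1) = a →
      (C a * A + C (a ^ p) * B).natDegree = A.natDegree)
    (hcop : ∀ a : k, a ≠ 0 → a ^ p ^ (n + 1) = a → ∀ x : k,
      a * A.eval x + a ^ p * B.eval x = 0 →
      a * s.eval x + ∑ i ∈ Finset.range n, (a ^ p * u.eval x) ^ p ^ i ≠ 0)
    (m : ℕ) (hm : p * (m + 1) + p * A.natDegree + p ^ n * u.natDegree =
      p * (p ^ n * u.natDegree)) :
    ∃ V : Submodule (ZMod p) (RatFunc k), IsSpaceL p m (n + 1) V := by
  have hp2 := hp.out.two_le
  have hp0 : (p : k[X]) = 0 := by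
    rw [← C_eq_natCast, natCast_p_eq_zero p, map_zero]
  obtain ⟨R, hR⟩ : B ∣ s ^ p - u := hAB.symm.dvd_of_dvd_mul_left ⟨_, heq⟩
  have hR1 : s ^ p - u = R * B := by rw [hR, mul_comm]
  have hR2 : u ^ p ^ n - s = R * A := by
    apply mul_left_cancel₀ hB0
    rw [← heq, hR]; ring
  have hdR : derivative R = 1 := by
    have := congrArg derivative hR1
    rw [derivative_sub, derivative_pow, derivative_mul, hB, hu, C_eq_natCast, hp0] at this
    apply mul_right_cancel₀ hB0
    linear_combination -this
  have hR0 : R ≠ 0 := by rintro rfl; simp at hdR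
  have hRd : 1 ≤ R.natDegree := by
    by_contra h0
    have : R.natDegree = 0 := by omega
    rw [natDegree_eq_zero] at this
    obtain ⟨c, rfl⟩ := this
    simp at hdR
  have hpn : 1 ≤ p ^ n := Nat.one_le_pow _ _ (by omega)
  have hRA : R.natDegree + A.natDegree = p ^ n * u.natDegree := by
    rw [← natDegree_mul hR0 hA0, ← hR2]
    by_cases hlt : s.natDegree < p ^ n * u.natDegree
    · rw [natDegree_sub_eq_left_of_natDegree_lt (by rwa [natDegree_pow]), natDegree_pow]
    · exfalso
      have h1 : u.natDegree ≤ p ^ n * u.natDegree := Nat.le_mul_of_pos_left _ hpn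
      have h2 : 2 * s.natDegree ≤ p * s.natDegree := Nat.mul_le_mul_right _ hp2
      have h3 : (s ^ p - u).natDegree = p * s.natDegree := by
        rw [natDegree_sub_eq_left_of_natDegree_lt (by rw [natDegree_pow]; omega), natDegree_pow]
      have h4 : (u ^ p ^ n - s).natDegree ≤ s.natDegree :=
        (natDegree_sub_le _ _).trans (by rw [natDegree_pow]; omega)
      rw [hR1, natDegree_mul hR0 hB0] at h3
      rw [hR2, natDegree_mul hR0 hA0] at h4
      omega
  let t : k → k[X] := fun a => C a * s + ∑ i ∈ Finset.range n, (C (a ^ p) * u) ^ p ^ i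
  refine exists_space_of_family p (n + 1) m (by omega)
    (fun a => algebraMap k[X] (RatFunc k) (t a) / algebraMap k[X] (RatFunc k) R) ?_ ?_
  · intro a b
    rw [← add_div, ← map_add]
    congr 2
    simp only [t, add_pow_char, map_add, add_mul, add_pow_char_pow, Finset.sum_add_distrib]
    ring
  · intro a ha haq
    have hAS : t a ^ p - t a = R * (C a * A + C (a ^ p) * B) := by
      have e1 : (∑ i ∈ Finset.range n, (C (a ^ p) * u) ^ p ^ i) ^ p =
          ∑ i ∈ Finset.range n, (C (a ^ p) * u) ^ p ^ (i + 1) := by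
        rw [sum_pow_char]
        refine Finset.sum_congr rfl fun i _ => ?_
        rw [← pow_mul, pow_succ]
      have e2 := Finset.sum_range_succ (fun i => (C (a ^ p) * u) ^ p ^ i) n
      have e3 := Finset.sum_range_succ' (fun i => (C (a ^ p) * u) ^ p ^ i) n
      have e4 : (C (a ^ p) * u) ^ p ^ n = C a * u ^ p ^ n := by
        rw [mul_pow, ← C_pow, ← pow_mul, ← pow_succ', haq]
      simp only [t]
      rw [add_pow_char, e1, mul_pow, ← C_pow]
      rw [e2, e4, pow_zero, pow_one] at e3
      linear_combination (C (a ^ p)) * hR1 + (C a) * hR2 - e3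
    have hdy : derivative (C a * A + C (a ^ p) * B) = 0 := by
      simp only [derivative_add, derivative_C_mul, hA, hB]; simp
    have hc : IsCoprime (t a) (C a * A + C (a ^ p) * B) := by
      rw [Polynomial.isCoprime_iff_aeval_ne_zero_of_isAlgClosed k k]
      intro x
      by_contra hcon
      push Not at hcon
      obtain ⟨h1, h2⟩ := hcon
      simp only [coe_aeval_eq_eval, t, eval_add, eval_mul, eval_C, eval_finsetSum,
        eval_pow] at h1 h2
      exact hcop a ha haq x h2 h1
    obtain ⟨h1, h2, h3, h4, h5⟩ := good_of_AS p (t a) R _ hAS hdR hdy (hy0 a ha haq) hc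
    refine ⟨div_ne_zero (am_ne_zero h1) (am_ne_zero hR0), h3, h4, ?_⟩
    rw [h5]
    have h6 := congrArg natDegree hAS
    rw [natDegree_mul hR0 (hy0 a ha haq), hy a ha haq] at h6
    have h7 : 1 ≤ (t a).natDegree := by
      by_contra h0
      have h8 : (t a ^ p - t a).natDegree ≤ 0 :=
        (natDegree_sub_le _ _).trans (by
          rw [natDegree_pow, show (t a).natDegree = 0 by omega]; simp)
      omega
    have h9 : 2 * (t a).natDegree ≤ p * (t a).natDegree := Nat.mul_le_mul_right _ hp2
    rw [natDegree_sub_eq_left_of_natDegree_lt (by rw [natDegree_pow]; omega), natDegree_pow] at h6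
    have h10 : p * (m + 1 + (t a).natDegree) = p * R.natDegree := by
      rw [← hRA] at hm
      rw [mul_add, h6]
      linarith
    have h11 := Nat.eq_of_mul_eq_mul_left (by omega : 0 < p) h10
    omega

end Pool.Agent.Lib.MP_f76cdc_ag
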